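import Pool.Agent.H543Z.FIM.Grp

/-!
The tree-walking automaton that simulates a word automaton on Munn trees.
-/

open Set

namespace Pool.Agent.H543Z.FIM

variable {n : ℕ} {ρ : Type}

/-- Go down to the start mark, simulate the automaton, and return from the end mark to the root. -/
def aut (δ : ρ × Option (Al n) × ρ → Prop) (i0 : ρ) (F : ρ → Prop) :
    TWA (Al n) (Prop × Prop × Prop) (ρ ⊕ Bool) where
  stay γ x y := (∃ i j, x = .inl i ∧ y = .inl j ∧ δ (i, none, j)) ∨
    (x = .inr false ∧ y = .inl i0 ∧ γ.2.1) ∨ ∃ i, x = .inl i ∧ F i ∧ y = .inr true ∧ γ.2.2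
  down x a y := (∃ i j, x = .inl i ∧ y = .inl j ∧ δ (i, some a, j)) ∨
    (x = .inr false ∧ y = .inr false)
  up x a y := (∃ i j, x = .inl i ∧ y = .inl j ∧ δ (i, some a.swap, j)) ∨
    (x = .inr true ∧ y = .inr true)
  cnt x := ∃ i, x = .inl i

variable {δ : ρ × Option (Al n) × ρ → Prop} {i0 : ρ} {F : ρ → Prop}

theorem wt_inl (p : List (Al n)) (i : ρ) : wt (aut δ i0 F) (p, .inl i) = {p} := by
  ext q; simp [wt, aut]

theorem wt_inr (p : List (Al n)) (b : Bool) : wt (aut δ i0 F) (p, .inr b) = ∅ := by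
  ext q; simp [wt, aut]

/-- What an accepting walk from the node `p` in state `i` yields. -/
def Main (δ : ρ × Option (Al n) × ρ → Prop) (F : ρ → Prop) (t : List (Al n) → Prop × Prop × Prop)
    (p : List (Al n)) (i : ρ) (S : Set (List (Al n))) : Prop :=
  ∃ l j p1, Chn δ j i l ∧ F j ∧ (t p1).2.2 ∧ p1 ∈ S ∧ ev p1 = ev p * ev (word l) ∧
    ∀ g, g ∈ ev '' S ↔ ∃ h ∈ pre (word l), g = ev p * h

theorem Main.letter {t : List (Al n) → Prop × Prop × Prop} {p p' : List (Al n)} {i j : ρ}
    {a : Al n} {S : Set (List (Al n))} (h : Main δ F t p' j S) (hδ : δ (i, some a, j))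
    (e : ev p' = ev p * gen a) : Main δ F t p i ({p} ∪ S) := by
  obtain ⟨l, k, p1, h1, h2, h3, h4, h5, h6⟩ := h
  have hw : word ((i, some a, j) :: l) = a :: word l := rfl
  refine ⟨(i, some a, j) :: l, k, p1, Chn.cons (i, some a, j) l hδ h1, h2, h3, Or.inr h4,
    by rw [hw, h5, e, ev_cons, mul_assoc], fun g => ?_⟩
  simp only [image_union, image_singleton, mem_union, mem_singleton_iff, h6, hw, mem_pre_cons, e]
  constructor
  · rintro (rfl | ⟨h, h7, rfl⟩)
    · exact ⟨1, Or.inl rfl, by simp⟩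
    · exact ⟨_, Or.inr ⟨h, h7, rfl⟩, by rw [mul_assoc]⟩
  · rintro ⟨_, rfl | ⟨h, h7, rfl⟩, rfl⟩
    · simp
    · exact Or.inr ⟨h, h7, by rw [mul_assoc]⟩

theorem aut_sound {t : List (Al n) → Prop × Prop × Prop} {e : List (Al n) × (ρ ⊕ Bool)}
    {S : Set (List (Al n))} (h : Pth (aut δ i0 F) t ([], .inr true) e S) :
    (e.2 = .inr true → S = ∅) ∧ (∀ i, e.2 = .inl i → Main δ F t e.1 i S) ∧
      (e.2 = .inr false → ∃ p0, (t p0).2.1 ∧ Main δ F t p0 i0 S) := by
  induction h with
  | refl => exact ⟨fun _ => wt_inr _ _, by simp, by simp⟩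
  | head c c' S hs _ ih =>
    cases hs with
    | stay p x y h =>
      rcases h with ⟨i, j, rfl, rfl, h⟩ | ⟨rfl, rfl, h⟩ | ⟨i, rfl, hF, rfl, h⟩
      · refine ⟨by simp, ?_, by simp⟩
        rintro _ ⟨⟩
        obtain ⟨l, k, p1, h1, h2, h3, h4, h5, h6⟩ := ih.2.1 j rfl
        have hw : word ((i, none, j) :: l) = word l := rfl
        refine ⟨(i, none, j) :: l, k, p1, Chn.cons (i, none, j) l h h1, h2, h3, Or.inr h4,
          by rw [hw, h5], fun g => ?_⟩
        rw [wt_inl, image_union, image_singleton, mem_union, h6, hw]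
        exact ⟨fun h => h.elim (fun h => ⟨1, one_mem_pre _, by simpa using h⟩) id, Or.inr⟩
      · refine ⟨by simp, by simp, fun _ => ⟨p, h, ?_⟩⟩
        rw [wt_inr, empty_union]
        exact ih.2.1 i0 rfl
      · refine ⟨by simp, ?_, by simp⟩
        rintro _ ⟨⟩
        rw [ih.1 rfl, wt_inl, union_empty]
        exact ⟨[], i, p, Chn.nil, hF, h, rfl, by simp [word], fun g => by
          simp [word, mem_pre_nil]⟩
    | down p a x y h =>
      rcases h with ⟨i, j, rfl, rfl, h⟩ | ⟨rfl, rfl⟩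
      · refine ⟨by simp, ?_, by simp⟩
        rintro _ ⟨⟩
        rw [wt_inl]
        exact (ih.2.1 j rfl).letter h (by simp)
      · refine ⟨by simp, by simp, fun _ => ?_⟩
        rw [wt_inr, empty_union]
        exact ih.2.2 rfl
    | up p a x y h =>
      rcases h with ⟨i, j, rfl, rfl, h⟩ | ⟨rfl, rfl⟩
      · refine ⟨by simp, ?_, by simp⟩
        rintro _ ⟨⟩
        rw [wt_inl]
        exact (ih.2.1 j rfl).letter h (by simp)
      · refine ⟨fun _ => ?_, by simp, by simp⟩
        rw [wt_inr, empty_union]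
        exact ih.1 rfl

theorem aut_post (t : List (Al n) → Prop × Prop × Prop) (p : List (Al n)) :
    Pth (aut δ i0 F) t ([], .inr true) (p, .inr true) ∅ := by
  induction p using List.reverseRecOn with
  | nil => rw [← wt_inr (δ := δ) (i0 := i0) (F := F) [] true]; exact Pth.refl
  | append_singleton p a ih =>
    have := Pth.head _ _ _ (Step.up (M := aut δ i0 F) p a (.inr true) (.inr true)
      (Or.inr ⟨rfl, rfl⟩)) ih
    rwa [wt_inr, empty_union] at this

theorem aut_pre {t : List (Al n) → Prop × Prop × Prop} {d : List (Al n) × (ρ ⊕ Bool)}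
    {S : Set (List (Al n))} (s : List (Al n)) :
    ∀ p, Pth (aut δ i0 F) t d (p ++ s, .inr false) S → Pth (aut δ i0 F) t d (p, .inr false) S := by
  induction s with
  | nil => simp
  | cons a s ih =>
    intro p h
    have := Pth.head _ _ _ (Step.down (M := aut δ i0 F) p a (.inr false) (.inr false)
      (Or.inr ⟨rfl, rfl⟩))
      (ih (p ++ [a]) (by simpa using h))
    rwa [wt_inr, empty_union] at this

theorem aut_complete {t : List (Al n) → Prop × Prop × Prop} {i j : ρ}
    {l : List (ρ × Option (Al n) × ρ)} (h : Chn δ j i l) (hF : F j) {p1 : List (Al n)}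
    (h1 : Rd p1) (ht : (t p1).2.2) : ∀ p, Rd p → ev p1 = ev p * ev (word l) →
      Pth (aut δ i0 F) t ([], .inr true) (p, .inl i)
        {p' | Rd p' ∧ ∃ h ∈ pre (word l), ev p' = ev p * h} := by
  induction h with
  | nil =>
    intro p hp e
    obtain rfl : p1 = p := ev_inj h1 hp (by simpa [word] using e)
    have := Pth.head _ _ _ (Step.stay (M := aut δ i0 F) (t := t) p1 (.inl j) (.inr true)
      (Or.inr (Or.inr ⟨j, rfl, hF, rfl, ht⟩))) (aut_post t p1)
    convert this using 1
    ext p'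
    simp only [word, List.filterMap_nil, mem_pre_nil, exists_eq_left, mul_one, mem_ofPred_eq,
      wt_inl, union_empty, mem_singleton_iff]
    exact ⟨fun h => ev_inj h.1 hp h.2, fun h => by subst h; exact ⟨hp, rfl⟩⟩
  | cons tr l hδ _ ih =>
    intro p hp e
    obtain ⟨i, o, k⟩ := tr
    cases o with
    | none =>
      have hw : word ((i, none, k) :: l) = word l := rfl
      rw [hw] at e ⊢
      have := Pth.head _ _ _ (Step.stay (M := aut δ i0 F) (t := t) p (.inl i) (.inl k)
        (Or.inl ⟨i, k, rfl, rfl, hδ⟩)) (ih p hp e)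
      rwa [wt_inl, union_eq_right.2] at this
      rintro _ rfl
      exact ⟨hp, 1, one_mem_pre _, by simp⟩
    | some a =>
      have hw : word ((i, some a, k) :: l) = a :: word l := rfl
      rw [hw] at e ⊢
      have hs : Step (aut δ i0 F) t (p, .inl i) (stp p a, .inl k) := by
        rcases stp_cases p a with ⟨h, -⟩ | h
        · rw [h]; exact Step.down _ _ _ _ (Or.inl ⟨i, k, rfl, rfl, hδ⟩)
        · conv_lhs => rw [h]
          exact Step.up _ _ _ _ (Or.inl ⟨i, k, rfl, rfl, by simpa using hδ⟩)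
      have := Pth.head _ _ _ hs (ih (stp p a) (hp.stp a) (by rw [e, ev_stp, ev_cons, mul_assoc]))
      convert this using 1
      ext p'
      simp only [mem_ofPred_eq, wt_inl, mem_union, mem_singleton_iff, mem_pre_cons, ev_stp]
      constructor
      · rintro ⟨h2, _, rfl | ⟨h, h3, rfl⟩, h4⟩
        · exact Or.inl (ev_inj h2 hp (by simpa using h4))
        · exact Or.inr ⟨h2, h, h3, by rw [h4, mul_assoc]⟩
      · rintro (rfl | ⟨h2, h, h3, h4⟩)
        · exact ⟨hp, 1, Or.inl rfl, by simp⟩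
        · exact ⟨h2, _, Or.inr ⟨h, h3, rfl⟩, by rw [h4, mul_assoc]⟩

/-- The Munn tree of a word as a labelled tree: membership and end mark. -/
def enc (w : List (Al n)) : List (Al n) → Prop × Prop :=
  fun p => (Rd p ∧ ev p ∈ pre w, Rd p ∧ ev p = ev w)

theorem enc_congr {w w' : List (Al n)} (h1 : ev w = ev w') (h2 : pre w = pre w') :
    enc w = enc w' := by
  funext p; simp only [enc, h1, h2]

/-- Union of two Munn trees, keeping both marks. -/
def comb (z : (Prop × Prop) × (Prop × Prop)) : Prop × Prop × Prop := (z.1.1 ∨ z.2.1, z.1.2, z.2.2)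

theorem comb_mem (u w : List (Al n)) :
    (fun p => comb (enc (winv u) p, enc w p)) ∈
      Lang (aut δ i0 F) (·.1) (.inr false) (.inr true) ↔ MemG δ i0 F (u ++ w) := by
  have hT : ∀ g, (g ∈ pre (winv u) ∨ g ∈ pre w) ↔ ev u * g ∈ pre (u ++ w) := by
    intro g
    rw [mem_pre_append, mem_pre_winv]
    simp
  constructor
  · rintro ⟨S, h1, h2⟩
    obtain ⟨p0, h3, l, j, p1, h4, h5, h6, -, h7, h8⟩ := (aut_sound h1).2.2 rfl
    have e0 : ev p0 = (ev u)⁻¹ := by simpa using h3.2
    have e1 : ev p1 = ev w := h6.2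
    refine ⟨l, j, h4, h5, by rw [ev_append, ← e1, h7, e0]; simp, ?_⟩
    ext g
    have := h8 ((ev u)⁻¹ * g)
    simp only [e0, mul_right_inj, exists_eq_right'] at this
    rw [← this]
    have h9 := hT ((ev u)⁻¹ * g)
    rw [mul_inv_cancel_left] at h9
    rw [← h9]
    constructor
    · intro h
      obtain ⟨p, hp, e⟩ := exists_rd ((ev u)⁻¹ * g)
      refine ⟨p, (h2 p).2 ?_, e⟩
      rw [← e] at h
      exact h.imp (fun h => ⟨hp, h⟩) fun h => ⟨hp, h⟩
    · rintro ⟨p, hp, e⟩
      rw [← e]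
      exact ((h2 p).1 hp).imp (·.2) (·.2)
  · rintro ⟨l, j, h1, h2, h3, h4⟩
    obtain ⟨p0, r0, e0⟩ := exists_rd (ev u)⁻¹
    obtain ⟨p1, r1, e1⟩ := exists_rd (ev w)
    have k1 := aut_complete (i0 := i0) (t := fun p => comb (enc (winv u) p, enc w p)) h1 h2 r1
      ⟨r1, e1⟩ p0 r0 (by rw [e1, e0, ← h3]; simp)
    have k2 := Pth.head _ _ _ (Step.stay (M := aut δ i0 F)
      (t := fun p => comb (enc (winv u) p, enc w p)) p0 (.inr false) (.inl i0)
      (Or.inr (Or.inl ⟨rfl, rfl, r0, by simpa using e0⟩))) k1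
    rw [wt_inr, empty_union] at k2
    refine ⟨_, aut_pre p0 [] k2, fun p => ?_⟩
    simp only [mem_ofPred_eq, comb, enc, ← and_or_left, hT, h4, e0]
    refine and_congr_right fun _ => ⟨?_, fun h => ⟨_, h, by simp⟩⟩
    rintro ⟨h, h5, h6⟩
    rw [h6]; simpa using h5

/-- The trees that encode Munn trees of words. -/
def Val (n : ℕ) : Set (List (Al n) → Prop × Prop) := {t | ∃ w, t = enc w}

theorem chn_univ (w : List (Al n)) :
    ∃ l, Chn (fun _ : Unit × Option (Al n) × Unit => True) () () l ∧ word l = w := by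
  induction w with
  | nil => exact ⟨[], Chn.nil, rfl⟩
  | cons a w ih =>
    obtain ⟨l, h1, h2⟩ := ih
    exact ⟨((), some a, ()) :: l, Chn.cons ((), some a, ()) l trivial h1, by rw [← h2]; rfl⟩

/-- Index bound for `Val n`. -/
def bV (n : ℕ) : ℕ := 2 * 2 ^ (n + n + 1) * (4 * bL 3)

theorem idx_val : Idx (Val n) (bV n) := by
  have h1 := idx_chain (α := Al n) (Γ := Prop × Prop) (fun a b => b ≠ a.swap) (·.1)
  have h2 := idx_uniq (α := Al n) (Γ := Prop × Prop) (·.2)
  have h3 := (idx_lang (M := aut (fun _ : Unit × Option (Al n) × Unit => True) () fun _ => True)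
    (·.1) (.inl ()) (.inr true)).comap fun γ : Prop × Prop => (γ.1, False, γ.2)
  have h4 := h1.inter (h2.inter h3)
  have e1 : Fintype.card (Al n) = n + n := by simp
  have e2 : Fintype.card (Unit ⊕ Bool) = 3 := by simp
  rw [e1, e2] at h4
  refine Idx.congr h4 fun t => ⟨?_, ?_⟩
  · rintro ⟨k1, k2, S, k3, k4⟩
    obtain ⟨l, j, p1, -, -, g1, g2, g3, g4⟩ := (aut_sound k3).2.1 () rfl
    simp only [ev_nil, one_mul, exists_eq_right'] at g3 g4
    have r1 : Rd p1 := k1 p1 ((k4 p1).1 g2)
    refine ⟨word l, funext fun p => Prod.ext (propext ?_) (propext ?_)⟩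
    · constructor
      · intro h
        exact ⟨k1 p h, (g4 _).1 ⟨p, (k4 p).2 h, rfl⟩⟩
      · rintro ⟨h, h'⟩
        obtain ⟨p', h5, h6⟩ := (g4 _).2 h'
        rw [← ev_inj (k1 p' ((k4 p').1 h5)) h h6]
        exact (k4 p').1 h5
    · constructor
      · intro h
        rw [k2 p p1 h g1]
        exact ⟨r1, g3⟩
      · rintro ⟨h, h'⟩
        rw [ev_inj h r1 (h'.trans g3.symm)]
        exact g1
  · rintro ⟨w, rfl⟩
    refine ⟨fun p h => h.1, fun p p' h h' => ev_inj h.1 h'.1 (h.2.trans h'.2.symm), ?_⟩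
    obtain ⟨l, g1, rfl⟩ := chn_univ w
    obtain ⟨p1, r1, e1⟩ := exists_rd (ev (word l))
    refine ⟨_, aut_complete (i0 := ()) (F := fun _ => True)
      (t := (fun γ : Prop × Prop => (γ.1, False, γ.2)) ∘ enc (word l)) g1 trivial r1 ⟨r1, e1⟩ []
      List.isChain_nil (by simpa using e1), fun p => ?_⟩
    simp [enc]

theorem htLE_enc (w : List (Al n)) : HtLE (False, False) (enc w) (w.length + 1) := by
  have hlen : ∀ w : List (Al n), (nf w).length ≤ w.length := by
    intro w
    induction w using List.reverseRecOn with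
    | nil => exact le_rfl
    | append_singleton w a ih =>
      have : nf (w ++ [a]) = stp (nf w) a := by simp [nf]
      rw [this]
      rcases stp_cases (nf w) a with ⟨h, -⟩ | h
      · rw [h]; simpa using ih
      · have := congrArg List.length h
        simp only [List.length_append, List.length_singleton] at this ⊢
        omega
  have key : ∀ p, Rd p → ev p ∈ pre w → p.length ≤ w.length := by
    rintro p hp ⟨k, hk⟩
    rw [ev_inj hp (nf_spec (w.take k)).1 (by rw [(nf_spec _).2, hk])]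
    exact (hlen _).trans (by simp)
  intro p hp
  refine Prod.ext (eq_false fun h => ?_) (eq_false fun h => ?_)
  · have := key p h.1 h.2; omega
  · have := key p h.1 (h.2 ▸ ev_mem_pre w); omega

theorem subt_enc (w q : List (Al n)) (h : ¬ (enc w q).1) :
    subt (enc w) q = fun _ => (False, False) := by
  funext s
  have : ¬ (Rd (q ++ s) ∧ ev (q ++ s) ∈ pre w) := fun h' =>
    h ⟨(List.isChain_append.1 h'.1).1, pre_prefix w q s h'.1 h'.2⟩
  exact Prod.ext (eq_false this) (eq_false fun h' => this ⟨h'.1, h'.2 ▸ ev_mem_pre w⟩)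

theorem ncard_short (H : ℕ) : {p : List (Al n) | p.length < H}.Finite ∧
    {p : List (Al n) | p.length < H}.ncard ≤ (n + n + 1) ^ H := by
  refine ⟨List.finite_length_lt _ H, ?_⟩
  induction H with
  | zero => simp
  | succ H ih =>
    have hsub : {p : List (Al n) | p.length < H + 1} ⊆
        insert [] ((fun z : Al n × List (Al n) => z.1 :: z.2) ''
          (univ ×ˢ {p : List (Al n) | p.length < H})) := by
      intro p hp
      cases p with
      | nil => exact mem_insert _ _
      | cons a p => exact mem_insert_of_mem _ ⟨(a, p), ⟨mem_univ _, by simpa using hp⟩, rfl⟩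
    have hf : (univ ×ˢ {p : List (Al n) | p.length < H} : Set (Al n × List (Al n))).Finite :=
      finite_univ.prod (List.finite_length_lt _ H)
    refine (ncard_le_ncard hsub ((hf.image _).insert _)).trans ((ncard_insert_le _ _).trans ?_)
    have h1 := ncard_image_le (f := fun z : Al n × List (Al n) => z.1 :: z.2) hf
    rw [ncard_prod, ncard_univ, Nat.card_eq_fintype_card, Fintype.card_sum, Fintype.card_fin] at h1
    have h2 := Nat.mul_le_mul_left (n + n) ih
    have h3 : 1 ≤ (n + n + 1) ^ H := Nat.one_le_pow _ _ (by omega)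
    rw [pow_succ]
    nlinarith

/-- Length bound for a word with a Munn tree of height at most `H`. -/
def bW (n H : ℕ) : ℕ := (n + n + 1) ^ H * ((n + n + 1) ^ H + 1)

theorem short_word (w : List (Al n)) {H : ℕ} (h : HtLE (False, False) (enc w) H) :
    ∃ w', enc w' = enc w ∧ w'.length ≤ bW n H := by
  have hK : (pre w).ncard ≤ (n + n + 1) ^ H := by
    refine le_trans ?_ ((ncard_image_le (f := ev) (ncard_short H).1).trans (ncard_short H).2)
    refine ncard_le_ncard (fun g hg => ?_) ((ncard_short H).1.image _)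
    obtain ⟨p, h1, rfl⟩ := exists_rd g
    refine ⟨p, ?_, rfl⟩
    by_contra hc
    have := h p (not_lt.1 hc)
    exact (iff_of_eq (congrArg Prod.fst this)).1 ⟨h1, hg⟩
  obtain ⟨l, g1, rfl⟩ := chn_univ w
  obtain ⟨l', -, k1, k2, k3⟩ := Chn.shorten _ _ l le_rfl g1 hK
  refine ⟨word l', enc_congr k1 k2, (List.length_filterMap_le _ _).trans ?_⟩
  simpa [bW] using k3

end Pool.Agent.H543Z.FIM
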