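import Pool.Agent.H543Z.FIM.Aut

/-!
Explicit bounds: finiteness of the set of residuals is equivalent to a bounded condition.
-/

open Set

namespace Pool.Agent.H543Z.FIM

variable {n : ℕ} {ρ : Type} (δ : ρ × Option (Al n) × ρ → Prop) (i0 : ρ) (F : ρ → Prop)

/-- Trees accepted by the simulating automaton. -/
def LW : Set (List (Al n) → Prop × Prop × Prop) := Lang (aut δ i0 F) (·.1) (.inr false) (.inr true)

/-- Triples whose third component is a Munn tree separating the first two. -/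
def LD : Set (List (Al n) → ((Prop × Prop) × (Prop × Prop)) × (Prop × Prop)) :=
  {z | Prod.snd ∘ z ∈ Val n} ∩ {z | (fun γ => comb (γ.1.1, γ.2)) ∘ z ∈ LW δ i0 F ↔
    (fun γ => comb (γ.1.2, γ.2)) ∘ z ∈ LW δ i0 F}ᶜ

/-- Pairs of Munn trees that are not separated. -/
def LE : Set (List (Al n) → (Prop × Prop) × (Prop × Prop)) :=
  {z | Prod.fst ∘ z ∈ Val n} ∩ ({z | Prod.snd ∘ z ∈ Val n} ∩
    {z | ∃ s ∈ LD δ i0 F, Prod.fst ∘ s = z}ᶜ)

/-- Mark sets that meet every tree of some class. -/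
def LU : Set (List (Al n) → Prop) :=
  {m | ∃ t ∈ Val n, ∀ t' : List (Al n) → Prop × Prop,
    (fun p => (t p, t' p)) ∈ LE δ i0 F → ∃ q, m q ∧ (t' q).1}

/-- Index bound. -/
def bD (n k : ℕ) : ℕ := bV n * (bL (k + 2) * bL (k + 2))

/-- Index bound. -/
def bE (n k : ℕ) : ℕ := bV n * (bV n * 2 ^ bD n k)

/-- Index bound. -/
def bU (n k : ℕ) : ℕ := 2 ^ (bV n * 2 ^ (bE n k * 2))

/-- Length bound for representatives. -/
def b1 (n k : ℕ) : ℕ := bW n (bU n k + bE n k)

/-- Length bound for separating words. -/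
def b2 (n k : ℕ) : ℕ := bW n (b1 n k + 1 + 1 + bD n k)

variable [Fintype ρ]

theorem idx_LD : Idx (LD δ i0 F) (bD n (Fintype.card ρ)) := by
  have h := idx_lang (M := aut δ i0 F) (·.1) (.inr false) (.inr true)
  have e : Fintype.card (ρ ⊕ Bool) = Fintype.card ρ + 2 := by simp
  rw [e] at h
  exact (idx_val.comap _).inter ((h.comap _).iff (h.comap _)).compl

theorem idx_LE : Idx (LE δ i0 F) (bE n (Fintype.card ρ)) :=
  (idx_val.comap _).inter ((idx_val.comap _).inter ((idx_LD δ i0 F).proj _).compl)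

theorem idx_LU : Idx (LU δ i0 F) (bU n (Fintype.card ρ)) := by
  have h1 := ((idx_LE δ i0 F).comap
    (fun γ : (Prop × (Prop × Prop)) × (Prop × Prop) => (γ.1.2, γ.2))).inter
    (idx_exists (fun γ : (Prop × (Prop × Prop)) × (Prop × Prop) => γ.1.1 ∧ γ.2.1)).compl
  have h2 := (((idx_val (n := n)).comap (Prod.snd : Prop × (Prop × Prop) → _)).inter
    (h1.proj Prod.fst).compl).proj Prod.fst
  refine h2.congr fun m => ⟨?_, ?_⟩
  · rintro ⟨y, ⟨k1, k2⟩, rfl⟩
    refine ⟨_, k1, fun t' ht' => ?_⟩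
    by_contra hcon
    exact k2 ⟨fun p => (y p, t' p), ⟨ht', hcon⟩, rfl⟩
  · rintro ⟨t, k1, k2⟩
    refine ⟨fun p => (m p, t p), ⟨k1, ?_⟩, rfl⟩
    rintro ⟨z, ⟨k3, k4⟩, k5⟩
    have e : ∀ p, (z p).1 = (m p, t p) := congrFun k5
    obtain ⟨q, g1, g2⟩ := k2 (fun p => (z p).2) (by
      have e2 : (fun p => (t p, (z p).2)) = (fun γ => (γ.1.2, γ.2)) ∘ z := by
        funext p
        simp [e]
      rw [e2]
      exact k3)
    exact k4 ⟨q, by rw [e]; exact g1, g2⟩

omit [Fintype ρ] in
theorem mem_LD (u u' w : List (Al n)) :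
    (fun p => ((enc (winv u) p, enc (winv u') p), enc w p)) ∈ LD δ i0 F ↔
      ¬ (MemG δ i0 F (u ++ w) ↔ MemG δ i0 F (u' ++ w)) := by
  rw [← comb_mem, ← comb_mem]
  exact ⟨fun h => h.2, fun h => ⟨⟨w, rfl⟩, h⟩⟩

omit [Fintype ρ] in
theorem mem_LE (u u' : List (Al n)) :
    (fun p => (enc (winv u) p, enc (winv u') p)) ∈ LE δ i0 F ↔
      ∀ w, MemG δ i0 F (u ++ w) ↔ MemG δ i0 F (u' ++ w) := by
  constructor
  · rintro ⟨-, -, h⟩ w
    by_contra hc
    exact h ⟨_, (mem_LD δ i0 F u u' w).2 hc, rfl⟩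
  · intro h
    refine ⟨⟨_, rfl⟩, ⟨_, rfl⟩, ?_⟩
    rintro ⟨s, hs, e⟩
    obtain ⟨w, hw⟩ := hs.1
    have : s = fun p => ((enc (winv u) p, enc (winv u') p), enc w p) := by
      funext p
      exact Prod.ext (congrFun e p) (congrFun hw p)
    rw [this, mem_LD] at hs
    exact hs (h w)

theorem test_bound {m : ℕ} {u u' : List (Al n)} (hu : u.length ≤ m) (hu' : u'.length ≤ m)
    (h : ∀ w, w.length ≤ bW n (m + 1 + bD n (Fintype.card ρ)) →
      (MemG δ i0 F (u ++ w) ↔ MemG δ i0 F (u' ++ w))) (w : List (Al n)) :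
    MemG δ i0 F (u ++ w) ↔ MemG δ i0 F (u' ++ w) := by
  by_contra hc
  obtain ⟨b, h1, h2⟩ := shrink (False, False)
    (fun b => (fun p => ((enc (winv u) p, enc (winv u') p), b p)) ∈ LD δ i0 F) (m + 1)
    (bD n (Fintype.card ρ)) (by
      intro b hb q hq
      obtain ⟨w', hw'⟩ := hb.1
      have hw : b = enc w' := hw'
      have hH : HtLE (False, False) (subt b q) (w'.length + 1) := fun p hp => by
        rw [hw]; exact htLE_enc w' _ (by simp; omega)
      obtain ⟨r, k1, k2⟩ := (idx_LD δ i0 F).small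
        (fun β => (((False, False), (False, False)), β)) (False, False) hH
      have z1 : ∀ s, enc (winv u) (q ++ s) = (False, False) := fun s =>
        htLE_enc _ _ (by simp; omega)
      have z2 : ∀ s, enc (winv u') (q ++ s) = (False, False) := fun s =>
        htLE_enc _ _ (by simp; omega)
      have key : ∀ r : List (Al n) → Prop × Prop,
          sub (fun p => ((enc (winv u) p, enc (winv u') p), b p)) q
            ((fun β => (((False, False), (False, False)), β)) ∘ r) =
          fun p => ((enc (winv u) p, enc (winv u') p), sub b q r p) := by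
        intro r
        funext p
        by_cases hp : q <+: p
        · obtain ⟨s, rfl⟩ := hp
          simp [z1, z2]
        · simp [sub_of_not _ _ hp]
      refine ⟨r, k1, ?_⟩
      rw [← key]
      apply k2
      rwa [key, sub_subt]) ((mem_LD δ i0 F u u' w).2 hc)
  obtain ⟨w1, hw1⟩ := h1.1
  have hw : b = enc w1 := hw1
  subst hw
  obtain ⟨w2, k1, k2⟩ := short_word w1 h2
  rw [← k1, mem_LD] at h1
  exact h1 (h w2 k2)

theorem rep_bound (hfin : (range fun u : List (Al n) => {w | MemG δ i0 F (u ++ w)}).Finite)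
    (u : List (Al n)) : ∃ u' : List (Al n), u'.length ≤ b1 n (Fintype.card ρ) ∧
      ∀ w, MemG δ i0 F (u ++ w) ↔ MemG δ i0 F (u' ++ w) := by
  obtain ⟨B, hB⟩ : ∃ B, ∀ u : List (Al n), ∃ u' : List (Al n), u'.length ≤ B ∧
      ∀ w, MemG δ i0 F (u ++ w) ↔ MemG δ i0 F (u' ++ w) := by
    obtain ⟨s, -, hs, e⟩ := hfin.exists_subset_finite_image_eq (s := univ)
      (f := fun u : List (Al n) => {w | MemG δ i0 F (u ++ w)}) (by rw [image_univ])
    obtain ⟨B, hB⟩ := (hs.image List.length).bddAbove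
    refine ⟨B, fun u => ?_⟩
    obtain ⟨u', h1, h2⟩ := e.ge ⟨u, rfl⟩
    exact ⟨u', hB ⟨u', h1, rfl⟩, fun w => (Set.ext_iff.1 h2 w).symm⟩
  have hU := (idx_LU δ i0 F).short (B := B + 1) (by
    rintro q ⟨_, ⟨w, rfl⟩, h⟩
    obtain ⟨u', k1, k2⟩ := hB (winv w)
    obtain ⟨q', hq', k3⟩ := h (enc (winv u')) (by
      have := (mem_LE δ i0 F _ _).2 k2
      rwa [winv_winv] at this)
    rw [hq'] at k3
    by_contra hc
    have := htLE_enc (winv u') q (by simp; omega)
    rw [this] at k3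
    exact k3)
  obtain ⟨t, ⟨u1, rfl, h1⟩, h2⟩ := shrink (False, False)
    (fun t => ∃ u1, t = enc (winv u1) ∧ ∀ w, MemG δ i0 F (u ++ w) ↔ MemG δ i0 F (u1 ++ w))
    (bU n (Fintype.card ρ)) (bE n (Fintype.card ρ)) (by
      rintro _ ⟨u1, rfl, h1⟩ q hq
      obtain ⟨t', k1, k2⟩ : ∃ t' : List (Al n) → Prop × Prop,
          (fun p => (enc (winv u1) p, t' p)) ∈ LE δ i0 F ∧ ¬ (t' q).1 := by
        by_contra hc
        push Not at hc
        have := hU q ⟨_, ⟨_, rfl⟩, fun t' ht' => ⟨q, rfl, hc t' ht'⟩⟩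
        omega
      obtain ⟨w', hw'⟩ := k1.2.1
      have hw : t' = enc (winv (winv w')) := by rw [winv_winv]; exact hw'
      generalize winv w' = u2 at hw
      subst hw
      have z1 : ∀ s, enc (winv u2) (q ++ s) = (False, False) := congrFun (subt_enc _ q k2)
      have hH : HtLE (False, False) (subt (enc (winv u1)) q) ((winv u1).length + 1) :=
        fun p hp => htLE_enc _ _ (by simp at hp ⊢; omega)
      obtain ⟨r, g1, g2⟩ := (idx_LE δ i0 F).small (fun β => (β, (False, False))) (False, False) hH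
      have key : ∀ r : List (Al n) → Prop × Prop,
          sub (fun p => (enc (winv u1) p, enc (winv u2) p)) q ((fun β => (β, (False, False))) ∘ r) =
          fun p => (sub (enc (winv u1)) q r p, enc (winv u2) p) := by
        intro r
        funext p
        by_cases hp : q <+: p
        · obtain ⟨s, rfl⟩ := hp
          simp [z1]
        · simp [sub_of_not _ _ hp]
      have g3 := g2 (fun p => (enc (winv u1) p, enc (winv u2) p)) q (by rwa [key, sub_subt])
      rw [key] at g3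
      obtain ⟨w3, hw3⟩ := g3.1
      have hw : sub (enc (winv u1)) q r = enc (winv (winv w3)) := by rw [winv_winv]; exact hw3
      refine ⟨r, g1, winv w3, hw, fun w => ?_⟩
      rw [hw, mem_LE] at g3
      rw [mem_LE] at k1
      rw [h1, k1, g3]) (t := enc (winv u)) ⟨u, rfl, fun _ => Iff.rfl⟩
  obtain ⟨w', k1, k2⟩ := short_word _ h2
  refine ⟨winv w', by rw [length_winv]; exact k2, fun w => ?_⟩
  rw [h1, ← comb_mem, ← comb_mem, winv_winv, k1]

theorem finite_iff : (range fun u : List (Al n) => {w | MemG δ i0 F (u ++ w)}).Finite ↔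
    ∀ u : List (Al n), u.length ≤ b1 n (Fintype.card ρ) + 1 →
      ∃ u' : List (Al n), u'.length ≤ b1 n (Fintype.card ρ) ∧
        ∀ w : List (Al n), w.length ≤ b2 n (Fintype.card ρ) →
          (MemG δ i0 F (u ++ w) ↔ MemG δ i0 F (u' ++ w)) := by
  constructor
  · intro h u _
    obtain ⟨u', h1, h2⟩ := rep_bound δ i0 F h u
    exact ⟨u', h1, fun w _ => h2 w⟩
  · intro h
    have key : ∀ u : List (Al n), ∃ u' : List (Al n), u'.length ≤ b1 n (Fintype.card ρ) ∧
        ∀ w, MemG δ i0 F (u ++ w) ↔ MemG δ i0 F (u' ++ w) := by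
      intro u
      induction u using List.reverseRecOn with
      | nil => exact ⟨[], Nat.zero_le _, fun _ => Iff.rfl⟩
      | append_singleton u a ih =>
        obtain ⟨u1, h1, h2⟩ := ih
        obtain ⟨u2, h3, h4⟩ := h (u1 ++ [a]) (by simpa using h1)
        refine ⟨u2, h3, fun w => ?_⟩
        rw [List.append_assoc, h2, ← List.append_assoc]
        exact test_bound δ i0 F (m := b1 n (Fintype.card ρ) + 1) (by simpa using h1)
          (by omega) h4 w
    refine ((List.finite_length_le (Al n) (b1 n (Fintype.card ρ))).image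
      fun u : List (Al n) => {w | MemG δ i0 F (u ++ w)}).subset ?_
    rintro _ ⟨u, rfl⟩
    obtain ⟨u', h1, h2⟩ := key u
    exact ⟨u', h1, Set.ext fun w => (h2 w).symm⟩

end Pool.Agent.H543Z.FIM
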