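import Pool.Agent.H543Z.FIM.Bound

/-!
The bounded condition is primitive recursive.
-/

open Set

namespace Pool.Agent.H543Z.FIM

section Generic

variable {X β : Type} [Primcodable X] [Primcodable β]

theorem pp_bex {f : X → List β} {R : X → β → Prop} (hf : Primrec f)
    (hR : PrimrecPred fun p : X × β => R p.1 p.2) : PrimrecPred fun x => ∃ b ∈ f x, R x b :=
  (PrimrecRel.exists_mem_list (R := fun b x => R x b)
    (hR.comp (Primrec.pair Primrec.snd Primrec.fst))).comp hf Primrec.id

theorem pp_ball {f : X → List β} {R : X → β → Prop} (hf : Primrec f)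
    (hR : PrimrecPred fun p : X × β => R p.1 p.2) : PrimrecPred fun x => ∀ b ∈ f x, R x b :=
  (PrimrecRel.forall_mem_list (R := fun b x => R x b)
    (hR.comp (Primrec.pair Primrec.snd Primrec.fst))).comp hf Primrec.id

theorem pp_iff {p q : X → Prop} (hp : PrimrecPred p) (hq : PrimrecPred q) :
    PrimrecPred fun x => p x ↔ q x :=
  ((hp.and hq).or (hp.not.and hq.not)).of_eq fun x => by tauto

theorem pp_imp {p q : X → Prop} (hp : PrimrecPred p) (hq : PrimrecPred q) :
    PrimrecPred fun x => p x → q x :=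
  (hp.not.or hq).of_eq fun x => by tauto

theorem pp_mem {f : X → β} {g : X → List β} (hf : Primrec f) (hg : Primrec g) :
    PrimrecPred fun x => f x ∈ g x :=
  (pp_bex (R := fun x b => b = f x) hg
    (Primrec.eq.comp Primrec.snd (hf.comp Primrec.fst))).of_eq fun x => by simp

theorem pr_add {f g : X → ℕ} (hf : Primrec f) (hg : Primrec g) : Primrec fun x => f x + g x :=
  Primrec.nat_add.comp hf hg

theorem pr_mul {f g : X → ℕ} (hf : Primrec f) (hg : Primrec g) : Primrec fun x => f x * g x :=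
  Primrec.nat_mul.comp hf hg

theorem pr_pow {f g : X → ℕ} (hf : Primrec f) (hg : Primrec g) : Primrec fun x => f x ^ g x :=
  (Primrec₂.unpaired'.1 Nat.Primrec.pow).comp hf hg

/-- All lists of length at most `k` with entries from `xs`. -/
def upTo (xs : List β) (k : ℕ) : List (List β) :=
  k.rec [[]] fun _ ih => [] :: ih.flatMap fun l => xs.map (· :: l)

omit [Primcodable β] in
theorem mem_upTo (xs : List β) (k : ℕ) (l : List β) :
    l ∈ upTo xs k ↔ l.length ≤ k ∧ ∀ x ∈ l, x ∈ xs := by
  induction k generalizing l with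
  | zero =>
    simp only [upTo, Nat.rec_zero, List.mem_singleton, nonpos_iff_eq_zero, List.length_eq_zero_iff]
    exact ⟨fun h => by simp [h], fun h => h.1⟩
  | succ k ih =>
    change l ∈ [] :: (upTo xs k).flatMap (fun l => xs.map (· :: l)) ↔ _
    cases l with
    | nil => simp
    | cons a l =>
      simp only [List.mem_cons, reduceCtorEq, List.mem_flatMap, ih, List.mem_map, List.cons.injEq,
        false_or, List.length_cons, add_le_add_iff_right, forall_eq_or_imp]
      constructor
      · rintro ⟨_, ⟨h1, h2⟩, _, h3, rfl, rfl⟩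
        exact ⟨h1, h3, h2⟩
      · rintro ⟨h1, h2, h3⟩
        exact ⟨l, ⟨h1, h3⟩, a, h2, rfl, rfl⟩

theorem pr_upTo {f : X → List β} {g : X → ℕ} (hf : Primrec f) (hg : Primrec g) :
    Primrec fun x => upTo (f x) (g x) :=
  Primrec.nat_rec' (h := fun x (p : ℕ × List (List β)) =>
      [] :: p.2.flatMap fun l => (f x).map (· :: l)) hg (Primrec.const [[]])
    (Primrec.list_cons.comp (Primrec.const []) (Primrec.list_flatMap (Primrec.snd.comp Primrec.snd)
      (Primrec.list_map (hf.comp (Primrec.fst.comp Primrec.fst))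
        (Primrec.list_cons.comp Primrec.snd (Primrec.snd.comp Primrec.fst)).to₂).to₂)).to₂

theorem pr_getLast : Primrec (List.getLast? : List β → Option β) :=
  (Primrec.list_head?.comp Primrec.list_reverse).of_eq fun l => by simp

end Generic

variable {n : ℕ}

theorem pr_stp : Primrec₂ (stp : List (Al n) → Al n → List (Al n)) := by
  have h : Primrec fun p : List (Al n) × Al n =>
      if p.1.getLast? = some p.2.swap then p.1.take (p.1.length - 1) else p.1 ++ [p.2] :=
    Primrec.ite (Primrec.eq.comp (pr_getLast.comp Primrec.fst)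
      ((Primrec.dom_finite fun a : Al n => some a.swap).comp Primrec.snd))
      (Primrec.list_take.comp (Primrec.nat_sub.comp (Primrec.list_length.comp Primrec.fst)
        (Primrec.const 1)) Primrec.fst) Primrec.list_concat
  exact h.of_eq fun p => by simp [stp, List.dropLast_eq_take]

theorem pr_nf : Primrec (nf : List (Al n) → List (Al n)) :=
  Primrec.list_foldl (f := id) (g := fun _ => []) (h := fun _ p => stp p.1 p.2) Primrec.id
    (Primrec.const []) (pr_stp.comp (Primrec.fst.comp Primrec.snd) (Primrec.snd.comp Primrec.snd)).to₂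

theorem pr_bL : Primrec bL := by
  unfold bL
  have h := pr_pow (Primrec.const 2) (pr_mul (X := ℕ) Primrec.id Primrec.id)
  exact pr_mul (Primrec.const 2) (pr_pow (Primrec.const 2) (pr_mul h h))

theorem pr_bW : Primrec (bW n) :=
  pr_mul (pr_pow (Primrec.const _) Primrec.id)
    (pr_add (pr_pow (Primrec.const _) Primrec.id) (Primrec.const 1))

theorem pr_bD : Primrec (bD n) :=
  have h := pr_bL.comp (pr_add Primrec.id (Primrec.const 2))
  pr_mul (Primrec.const _) (pr_mul h h)

theorem pr_bE : Primrec (bE n) :=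
  pr_mul (Primrec.const _) (pr_mul (Primrec.const _) (pr_pow (Primrec.const 2) pr_bD))

theorem pr_bU : Primrec (bU n) :=
  pr_pow (Primrec.const 2) (pr_mul (Primrec.const _)
    (pr_pow (Primrec.const 2) (pr_mul pr_bE (Primrec.const 2))))

theorem pr_b1 : Primrec (b1 n) := pr_bW.comp (pr_add pr_bU pr_bE)

theorem pr_b2 : Primrec (b2 n) :=
  pr_bW.comp (pr_add (pr_add (pr_add pr_b1 (Primrec.const 1)) (Primrec.const 1)) pr_bD)

/-- Transitions with natural numbers as states. -/
abbrev Tr (n : ℕ) := ℕ × Option (Al n) × ℕ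

/-- Automata: a list of transitions and a list of final states. -/
abbrev Aut (n : ℕ) := List (Tr n) × List ℕ

/-- Consecutive transitions fit. -/
def Fits (l : List (Tr n)) : Prop :=
  ∀ i : ℕ, i + 1 < l.length → (l[i]?).map (fun t => t.2.2) = (l[i+1]?).map (fun t => t.1)

theorem chn_iff (T : List (Tr n)) (j : ℕ) (l : List (Tr n)) : ∀ i, Chn (· ∈ T) j i l ↔
    (∀ t ∈ l, t ∈ T) ∧ Fits l ∧ ((l.head?).map (fun t => t.1)).getD i = i ∧
      ((l.getLast?).map (fun t => t.2.2)).getD i = j := by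
  induction l with
  | nil =>
    intro i
    simp only [List.not_mem_nil, false_imp_iff, implies_true, Fits, List.length_nil, not_lt_zero,
      List.head?_nil, Option.map_none, Option.getD_none, List.getLast?_nil, true_and]
    exact ⟨fun h => by cases h; rfl, fun h => h ▸ Chn.nil⟩
  | cons t l ih =>
    intro i
    have hF : Fits (t :: l) ↔ ((l.head?).map (fun t => t.1)).getD t.2.2 = t.2.2 ∧ Fits l := by
      cases l with
      | nil => simp [Fits]
      | cons t' l =>
        constructor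
        · intro h
          refine ⟨by simpa [eq_comm] using h 0 (by simp), fun k hk => ?_⟩
          simpa using h (k + 1) (by simpa using hk)
        · rintro ⟨h1, h2⟩ k hk
          cases k with
          | zero => simpa [eq_comm] using h1
          | succ k => simpa using h2 k (by simpa using hk)
    have hL : (((t :: l).getLast?).map (fun t => t.2.2)).getD i =
        ((l.getLast?).map (fun t => t.2.2)).getD t.2.2 := by
      cases l with
      | nil => simp
      | cons t' l =>
        rw [List.getLast?_cons_cons]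
        obtain ⟨x, hx⟩ : ∃ x, (t' :: l).getLast? = some x := ⟨_, List.getLast?_cons⟩
        simp [hx]
    rw [hF, hL]
    constructor
    · intro h
      cases h with
      | cons _ _ h1 h2 =>
        obtain ⟨k1, k2, k3, k4⟩ := (ih _).1 h2
        refine ⟨?_, ⟨k3, k2⟩, by simp, k4⟩
        intro s hs
        rcases List.mem_cons.1 hs with rfl | hs
        exacts [h1, k1 s hs]
    · rintro ⟨k1, ⟨k2, k3⟩, k4, k5⟩
      obtain rfl : t.1 = i := by simpa using k4
      exact Chn.cons t l (k1 t List.mem_cons_self)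
        ((ih _).2 ⟨fun s hs => k1 s (List.mem_cons_of_mem _ hs), k3, k2, k5⟩)

/-- A bound for the states. -/
def nSt (A : Aut n) : ℕ := (A.1.map fun t => t.1 + t.2.2).sum + 1

theorem lt_nSt {A : Aut n} {t : Tr n} (h : t ∈ A.1) : t.1 < nSt A ∧ t.2.2 < nSt A := by
  have := List.le_sum_of_mem (List.mem_map_of_mem (f := fun t : Tr n => t.1 + t.2.2) h)
  simp only [nSt]
  omega

theorem pr_nSt : Primrec (nSt : Aut n → ℕ) := by
  have h : Primrec fun A : Aut n => A.1.foldr (fun b s => b.1 + b.2.2 + s) 0 :=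
    Primrec.list_foldr (h := fun _ (p : Tr n × ℕ) => p.1.1 + p.1.2.2 + p.2) Primrec.fst
      (Primrec.const 0) (pr_add (pr_add (Primrec.fst.comp (Primrec.fst.comp Primrec.snd))
        (Primrec.snd.comp (Primrec.snd.comp (Primrec.fst.comp Primrec.snd))))
        (Primrec.snd.comp Primrec.snd)).to₂
  refine (pr_add h (Primrec.const 1)).of_eq fun A => ?_
  simp only [nSt, add_left_inj]
  induction A.1 with
  | nil => rfl
  | cons t l ih => simp [ih]

/-- The transition relation on the finite state set. -/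
def dA (A : Aut n) (t : Fin (nSt A) × Option (Al n) × Fin (nSt A)) : Prop :=
  ((t.1 : ℕ), t.2.1, (t.2.2 : ℕ)) ∈ A.1

theorem chn_up {A : Aut n} {i j : ℕ} {l : List (Tr n)} (h : Chn (· ∈ A.1) j i l) :
    ∀ hi : i < nSt A, ∃ (hj : j < nSt A) (l' : _), Chn (dA A) ⟨j, hj⟩ ⟨i, hi⟩ l' ∧
      word l' = word l := by
  induction h with
  | nil => exact fun hi => ⟨hi, [], Chn.nil, rfl⟩
  | cons t l h1 _ ih =>
    intro hi
    obtain ⟨hj, l', k1, k2⟩ := ih (lt_nSt h1).2
    refine ⟨hj, (⟨t.1, hi⟩, t.2.1, ⟨t.2.2, (lt_nSt h1).2⟩) :: l',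
      Chn.cons (⟨t.1, hi⟩, t.2.1, ⟨t.2.2, (lt_nSt h1).2⟩) l' h1 k1, ?_⟩
    simp only [word, List.filterMap_cons] at k2 ⊢
    rw [k2]

theorem chn_down {A : Aut n} {i j : Fin (nSt A)} {l : List _} (h : Chn (dA A) j i l) :
    ∃ l', Chn (· ∈ A.1) j i l' ∧ word l' = word l ∧ l'.length = l.length := by
  induction h with
  | nil => exact ⟨[], Chn.nil, rfl, rfl⟩
  | cons t l h1 _ ih =>
    obtain ⟨l', k1, k2, k3⟩ := ih
    refine ⟨((t.1 : ℕ), t.2.1, (t.2.2 : ℕ)) :: l',
      Chn.cons ((t.1 : ℕ), t.2.1, (t.2.2 : ℕ)) l' h1 k1, ?_, by simp [k3]⟩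
    simp only [word, List.filterMap_cons] at k2 ⊢
    rw [k2]

/-- Membership, as in the frozen statement. -/
def MemF (A : Aut n) (z : List (Al n)) : Prop :=
  ∃ v, (∃ l : List (Tr n), (∀ t ∈ l, t ∈ A.1) ∧ Fits l ∧ ((l.head?).map (fun t => t.1)).getD 0 = 0 ∧
    ((l.getLast?).map (fun t => t.2.2)).getD 0 ∈ A.2 ∧ word l = v) ∧ ev z = ev v ∧ pre z = pre v

theorem memF_iff (A : Aut n) (z : List (Al n)) :
    MemF A z ↔ MemG (dA A) ⟨0, Nat.succ_pos _⟩ (fun i => (i : ℕ) ∈ A.2) z := by
  constructor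
  · rintro ⟨_, ⟨l, h1, h2, h3, h4, rfl⟩, h5, h6⟩
    obtain ⟨hj, l', k1, k2⟩ := chn_up ((chn_iff A.1 _ l 0).2 ⟨h1, h2, h3, rfl⟩) (Nat.succ_pos _)
    exact ⟨l', _, k1, h4, k2 ▸ h5, k2 ▸ h6⟩
  · rintro ⟨l, j, h1, h2, h3, h4⟩
    obtain ⟨l', k1, k2, -⟩ := chn_down h1
    obtain ⟨g1, g2, g3, g4⟩ := (chn_iff A.1 _ l' 0).1 k1
    exact ⟨_, ⟨l', g1, g2, g3, g4 ▸ h2, k2⟩, h3, h4⟩

/-- Inclusion of Munn trees, in bounded form. -/
def SubB (z v : List (Al n)) : Prop :=
  ∀ k ∈ List.range (z.length + 1), ∃ j ∈ List.range (v.length + 1), nf (z.take k) = nf (v.take j)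

theorem subB_iff (z v : List (Al n)) : SubB z v ↔ pre z ⊆ pre v := by
  rw [pre_eq_image, pre_eq_image, image_subset_iff]
  simp only [SubB, List.mem_range, ← ev_eq_iff, subset_def, Finset.coe_range, mem_Iio, mem_preimage,
    mem_image, eq_comm]

theorem pp_subB : PrimrecPred fun p : List (Al n) × List (Al n) => SubB p.1 p.2 :=
  pp_ball (Primrec.list_range.comp (pr_add (Primrec.list_length.comp Primrec.fst) (Primrec.const 1)))
    (pp_bex (R := fun (x : (List (Al n) × List (Al n)) × ℕ) j =>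
        nf (x.1.1.take x.2) = nf (x.1.2.take j))
      (Primrec.list_range.comp (pr_add (Primrec.list_length.comp
        (Primrec.snd.comp Primrec.fst)) (Primrec.const 1)))
      (Primrec.eq.comp
        (pr_nf.comp (Primrec.list_take.comp (Primrec.snd.comp Primrec.fst)
          (Primrec.fst.comp (Primrec.fst.comp Primrec.fst))))
        (pr_nf.comp (Primrec.list_take.comp Primrec.snd
          (Primrec.snd.comp (Primrec.fst.comp Primrec.fst))))))

theorem pp_fits : PrimrecPred (Fits : List (Tr n) → Prop) := by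
  have h := pp_ball (X := List (Tr n)) (R := fun l i => i + 1 < l.length →
      (l[i]?).map (fun t => t.2.2) = (l[i+1]?).map (fun t => t.1))
    (Primrec.list_range.comp Primrec.list_length)
    (pp_imp (Primrec.nat_lt.comp (pr_add Primrec.snd (Primrec.const 1))
      (Primrec.list_length.comp Primrec.fst))
      (Primrec.eq.comp ((Primrec.option_map₁ (Primrec.snd.comp Primrec.snd)).comp
        (Primrec.list_getElem?.comp Primrec.fst Primrec.snd))
        ((Primrec.option_map₁ Primrec.fst).comp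
          (Primrec.list_getElem?.comp Primrec.fst (pr_add Primrec.snd (Primrec.const 1))))))
  refine h.of_eq fun l => ⟨fun h i hi => h i (List.mem_range.2 (by omega)) hi, fun h i _ => h i⟩

theorem pr_word : Primrec (word : List (Tr n) → List (Al n)) :=
  Primrec.listFilterMap (f := id) (g := fun _ (t : Tr n) => t.2.1) Primrec.id
    (Primrec.fst.comp (Primrec.snd.comp Primrec.snd)).to₂

theorem memF_iff_bounded (A : Aut n) (z : List (Al n)) : MemF A z ↔
    ∃ l ∈ upTo A.1 (nSt A * ((z.length + 1) * (z.length + 1 + 1))), Fits l ∧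
      ((l.head?).map (fun t => t.1)).getD 0 = 0 ∧ ((l.getLast?).map (fun t => t.2.2)).getD 0 ∈ A.2 ∧
        nf z = nf (word l) ∧ SubB z (word l) ∧ SubB (word l) z := by
  simp only [mem_upTo, ← ev_eq_iff, subB_iff]
  constructor
  · intro h
    obtain ⟨l, j, h1, h2, h3, h4⟩ := (memF_iff A z).1 h
    obtain ⟨l', k1, k2, k3, k4⟩ := Chn.shorten (z.length + 1) _ l le_rfl h1 (h4 ▸ ncard_pre z)
    obtain ⟨l'', m1, m2, m3⟩ := chn_down k1
    obtain ⟨g1, g2, g3, g4⟩ := (chn_iff A.1 _ l'' 0).1 m1
    rw [Fintype.card_fin] at k4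
    refine ⟨l'', ⟨m3 ▸ k4, g1⟩, g2, g3, g4 ▸ h2, by rw [m2, k2, h3], ?_, ?_⟩ <;>
      rw [m2, k3, h4]
  · rintro ⟨l, ⟨-, h1⟩, h2, h3, h4, h5, h6, h7⟩
    exact ⟨_, ⟨l, h1, h2, h3, h4, rfl⟩, h5, h6.antisymm h7⟩

theorem pp_memF : PrimrecPred fun p : Aut n × List (Al n) => MemF p.1 p.2 := by
  have hz : Primrec fun p : Aut n × List (Al n) => p.2.length + 1 :=
    pr_add (Primrec.list_length.comp Primrec.snd) (Primrec.const 1)
  have hw : Primrec fun x : (Aut n × List (Al n)) × List (Tr n) => word x.2 :=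
    pr_word.comp Primrec.snd
  have hs : Primrec fun x : (Aut n × List (Al n)) × List (Tr n) => x.1.2 :=
    Primrec.snd.comp Primrec.fst
  have h := pp_bex (X := Aut n × List (Al n)) (R := fun p l => Fits l ∧
      ((l.head?).map (fun t => t.1)).getD 0 = 0 ∧
      ((l.getLast?).map (fun t => t.2.2)).getD 0 ∈ p.1.2 ∧
        nf p.2 = nf (word l) ∧ SubB p.2 (word l) ∧ SubB (word l) p.2)
    (pr_upTo (Primrec.fst.comp Primrec.fst)
      (pr_mul (pr_nSt.comp Primrec.fst) (pr_mul hz (pr_add hz (Primrec.const 1)))))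
    ((pp_fits.comp Primrec.snd).and ((Primrec.eq.comp (Primrec.option_getD.comp
      ((Primrec.option_map₁ Primrec.fst).comp (Primrec.list_head?.comp Primrec.snd))
        (Primrec.const 0)) (Primrec.const 0)).and
      ((pp_mem (Primrec.option_getD.comp ((Primrec.option_map₁ (Primrec.snd.comp Primrec.snd)).comp
        (pr_getLast.comp Primrec.snd)) (Primrec.const 0))
        (Primrec.snd.comp (Primrec.fst.comp Primrec.fst))).and
      ((Primrec.eq.comp (pr_nf.comp hs) (pr_nf.comp hw)).and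
        ((pp_subB.comp (hs.pair hw)).and (pp_subB.comp (hw.pair hs)))))))
  exact h.of_eq fun p => (memF_iff_bounded p.1 p.2).symm

theorem pp_finite : PrimrecPred fun A : Aut n =>
    (range fun u : List (Al n) => {w | MemF A (u ++ w)}).Finite := by
  obtain ⟨xs, -, hxs⟩ := Finite.exists_univ_list (Al n)
  have h1 : PrimrecPred fun x : ((Aut n × List (Al n)) × List (Al n)) × List (Al n) =>
      (MemF x.1.1.1 (x.1.1.2 ++ x.2) ↔ MemF x.1.1.1 (x.1.2 ++ x.2)) :=
    pp_iff (pp_memF.comp ((Primrec.fst.comp (Primrec.fst.comp Primrec.fst)).pair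
      (Primrec.list_append.comp (Primrec.snd.comp (Primrec.fst.comp Primrec.fst)) Primrec.snd)))
      (pp_memF.comp ((Primrec.fst.comp (Primrec.fst.comp Primrec.fst)).pair
      (Primrec.list_append.comp (Primrec.snd.comp Primrec.fst) Primrec.snd)))
  have h2 := pp_ball (R := fun (x : (Aut n × List (Al n)) × List (Al n)) w =>
      (MemF x.1.1 (x.1.2 ++ w) ↔ MemF x.1.1 (x.2 ++ w)))
    (pr_upTo (Primrec.const xs) ((pr_b2 (n := n)).comp (pr_nSt.comp (Primrec.fst.comp Primrec.fst)))) h1
  have h3 := pp_bex (R := fun (x : Aut n × List (Al n)) u' => ∀ w ∈ upTo xs (b2 n (nSt x.1)),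
      (MemF x.1 (x.2 ++ w) ↔ MemF x.1 (u' ++ w)))
    (pr_upTo (Primrec.const xs) ((pr_b1 (n := n)).comp (pr_nSt.comp Primrec.fst))) h2
  have h4 := pp_ball (R := fun (A : Aut n) u => ∃ u' ∈ upTo xs (b1 n (nSt A)),
      ∀ w ∈ upTo xs (b2 n (nSt A)), (MemF A (u ++ w) ↔ MemF A (u' ++ w)))
    (pr_upTo (Primrec.const xs) (pr_add ((pr_b1 (n := n)).comp pr_nSt) (Primrec.const 1))) h3
  refine h4.of_eq fun A => ?_
  simp only [memF_iff, finite_iff, mem_upTo, hxs, implies_true, and_true, Fintype.card_fin]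

theorem decide_finite (n : ℕ) : ∃ f : Aut n → Bool, Computable f ∧ ∀ A : Aut n, (f A = true ↔
    (range fun u : List (Al n) => {w | MemF A (u ++ w)}).Finite) := by
  obtain ⟨_, h⟩ := pp_finite (n := n)
  exact ⟨_, h.to_comp, fun A => decide_eq_true_iff⟩

end Pool.Agent.H543Z.FIM
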