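import Pool.Agent.H543Z.FIM.TWA

/-!
Words over letters and inverse letters, Munn trees, runs of automata.
-/

open Set

namespace Pool.Agent.H543Z.FIM

/-- Letters and inverse letters. -/
abbrev Al (n : ℕ) := Fin n ⊕ Fin n

variable {n : ℕ}

/-- The image of a letter in the free group. -/
def gen : Al n → FreeGroup (Fin n) :=
  Sum.elim (fun i : Fin n => FreeGroup.of i) (fun i : Fin n => (FreeGroup.of i)⁻¹)

/-- The image of a word in the free group. -/
def ev (w : List (Al n)) : FreeGroup (Fin n) := (w.map gen).prod

/-- The vertex set of the Munn tree of a word. -/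
def pre (w : List (Al n)) : Set (FreeGroup (Fin n)) := {g | ∃ k : ℕ, ev (w.take k) = g}

/-- Reduced words. -/
def Rd (p : List (Al n)) : Prop := p.IsChain fun a b => b ≠ a.swap

@[simp] theorem ev_nil : ev ([] : List (Al n)) = 1 := rfl

@[simp] theorem ev_cons (a : Al n) (w : List (Al n)) : ev (a :: w) = gen a * ev w := by simp [ev]

@[simp] theorem ev_append (u w : List (Al n)) : ev (u ++ w) = ev u * ev w := by simp [ev]

@[simp] theorem gen_swap (a : Al n) : gen a.swap = (gen a)⁻¹ := by cases a <;> simp [gen]

theorem one_mem_pre (w : List (Al n)) : 1 ∈ pre w := ⟨0, by simp⟩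

theorem ev_mem_pre (w : List (Al n)) : ev w ∈ pre w := ⟨w.length, by simp⟩

theorem mem_pre_nil (g : FreeGroup (Fin n)) : g ∈ pre [] ↔ g = 1 := by simp [pre, eq_comm]

theorem mem_pre_cons (a : Al n) (w : List (Al n)) (g : FreeGroup (Fin n)) :
    g ∈ pre (a :: w) ↔ g = 1 ∨ ∃ h ∈ pre w, g = gen a * h := by
  constructor
  · rintro ⟨k, rfl⟩
    cases k with
    | zero => simp
    | succ k => exact Or.inr ⟨_, ⟨k, rfl⟩, by simp⟩
  · rintro (rfl | ⟨_, ⟨k, rfl⟩, rfl⟩)
    · exact one_mem_pre _
    · exact ⟨k + 1, by simp⟩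

theorem mem_pre_append (u w : List (Al n)) (g : FreeGroup (Fin n)) :
    g ∈ pre (u ++ w) ↔ g ∈ pre u ∨ ∃ h ∈ pre w, g = ev u * h := by
  induction u generalizing g with
  | nil =>
    simp only [List.nil_append, mem_pre_nil, ev_nil, one_mul, exists_eq_right']
    exact ⟨Or.inr, fun h => h.elim (fun h => h ▸ one_mem_pre w) id⟩
  | cons a u ih =>
    simp only [List.cons_append, mem_pre_cons, ih, ev_cons]
    constructor
    · rintro (h | ⟨h, h1 | ⟨h', h1, rfl⟩, rfl⟩)
      · exact Or.inl (Or.inl h)
      · exact Or.inl (Or.inr ⟨h, h1, rfl⟩)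
      · exact Or.inr ⟨h', h1, by rw [mul_assoc]⟩
    · rintro ((h | ⟨h, h1, rfl⟩) | ⟨h, h1, rfl⟩)
      · exact Or.inl h
      · exact Or.inr ⟨h, Or.inl h1, rfl⟩
      · exact Or.inr ⟨_, Or.inr ⟨h, h1, rfl⟩, by rw [mul_assoc]⟩

theorem pre_eq_image (w : List (Al n)) :
    pre w = (fun k => ev (w.take k)) '' (Finset.range (w.length + 1) : Set ℕ) := by
  ext g
  constructor
  · rintro ⟨k, rfl⟩
    refine ⟨min k w.length, by simp, ?_⟩
    simp only
    rw [← List.take_eq_take_min]
  · rintro ⟨k, -, rfl⟩
    exact ⟨k, rfl⟩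

theorem pre_finite (w : List (Al n)) : (pre w).Finite := by
  rw [pre_eq_image]; exact (Finset.finite_toSet _).image _

theorem ncard_pre (w : List (Al n)) : (pre w).ncard ≤ w.length + 1 := by
  rw [pre_eq_image]
  exact (ncard_image_le (Finset.finite_toSet _)).trans (by simp)

/-- The formal inverse of a word. -/
def winv (w : List (Al n)) : List (Al n) := (w.map Sum.swap).reverse

@[simp] theorem winv_winv (w : List (Al n)) : winv (winv w) = w := by
  simp [winv, List.map_reverse, Function.comp_def]

@[simp] theorem length_winv (w : List (Al n)) : (winv w).length = w.length := by simp [winv]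

theorem winv_cons (a : Al n) (w : List (Al n)) : winv (a :: w) = winv w ++ [a.swap] := by
  simp [winv]

@[simp] theorem ev_winv (w : List (Al n)) : ev (winv w) = (ev w)⁻¹ := by
  induction w with
  | nil => simp [winv]
  | cons a w ih => simp [winv_cons, ih]

theorem mem_pre_winv (w : List (Al n)) (g : FreeGroup (Fin n)) :
    g ∈ pre (winv w) ↔ ev w * g ∈ pre w := by
  induction w with
  | nil => simp [winv]
  | cons a w ih =>
    simp only [winv_cons, mem_pre_append, ih, mem_pre_cons, mem_pre_nil, ev_winv, ev_cons, gen_swap]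
    constructor
    · rintro (h | ⟨_, rfl | ⟨_, rfl, rfl⟩, rfl⟩)
      · exact Or.inr ⟨_, h, by rw [mul_assoc]⟩
      · exact Or.inr ⟨1, one_mem_pre w, by group⟩
      · exact Or.inl (by group)
    · rintro (h | ⟨h, h1, h2⟩)
      · refine Or.inr ⟨_, Or.inr ⟨1, rfl, rfl⟩, ?_⟩
        rw [eq_inv_of_mul_eq_one_right h]; group
      · rw [mul_assoc, mul_right_inj] at h2
        exact Or.inl (h2 ▸ h1)

theorem ev_inj {p p' : List (Al n)} (h : Rd p) (h' : Rd p') (e : ev p = ev p') : p = p' := by
  let f : Al n → Fin n × Bool := Sum.elim (fun i => (i, true)) (fun i => (i, false))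
  have hf : Function.Injective f := by
    rintro (a | a) (b | b) h <;> simp_all [f]
  have hev : ∀ w : List (Al n), ev w = FreeGroup.mk (w.map f) := by
    intro w
    induction w with
    | nil => rfl
    | cons a w ih =>
      have : gen a = FreeGroup.mk [f a] := by cases a <;> rfl
      rw [ev_cons, ih, this, FreeGroup.mul_mk]; rfl
  have hred : ∀ w : List (Al n), Rd w → FreeGroup.IsReduced (w.map f) := by
    intro w hw
    rw [FreeGroup.IsReduced, List.isChain_map]
    refine hw.imp ?_
    rintro (a | a) (b | b) h <;> simp_all [f, eq_comm]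
  rw [hev, hev] at e
  have := FreeGroup.reduce.sound e
  rw [(hred p h).reduce_eq, (hred p' h').reduce_eq] at this
  exact List.map_injective_iff.2 hf this

/-- Multiply a reduced word by a letter. -/
def stp (p : List (Al n)) (a : Al n) : List (Al n) :=
  if p.getLast? = some a.swap then p.dropLast else p ++ [a]

theorem stp_cases (p : List (Al n)) (a : Al n) :
    (stp p a = p ++ [a] ∧ p.getLast? ≠ some a.swap) ∨ p = stp p a ++ [a.swap] := by
  unfold stp
  split_ifs with h
  · exact Or.inr (List.dropLast_append_getLast? _ h).symm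
  · exact Or.inl ⟨rfl, h⟩

theorem ev_stp (p : List (Al n)) (a : Al n) : ev (stp p a) = ev p * gen a := by
  rcases stp_cases p a with ⟨h, -⟩ | h
  · simp [h]
  · conv_rhs => rw [h]
    simp

theorem Rd.stp {p : List (Al n)} (hp : Rd p) (a : Al n) : Rd (stp p a) := by
  rcases stp_cases p a with ⟨h, h'⟩ | h
  · rw [h, Rd, List.isChain_append]
    refine ⟨hp, List.isChain_singleton _, fun x hx y hy => ?_⟩
    simp only [List.head?_cons, Option.mem_def, Option.some.injEq] at hy hx
    subst hy
    rintro rfl
    exact h' (by simpa using hx)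
  · rw [h] at hp
    exact (List.isChain_append.1 hp).1

/-- The reduced form of a word. -/
def nf (w : List (Al n)) : List (Al n) := w.foldl stp []

theorem nf_spec (w : List (Al n)) : Rd (nf w) ∧ ev (nf w) = ev w := by
  induction w using List.reverseRecOn with
  | nil => exact ⟨List.isChain_nil, rfl⟩
  | append_singleton w a ih =>
    have : nf (w ++ [a]) = stp (nf w) a := by simp [nf]
    rw [this]
    exact ⟨ih.1.stp a, by simp [ev_stp, ih.2]⟩

theorem ev_eq_iff (u w : List (Al n)) : ev u = ev w ↔ nf u = nf w :=
  ⟨fun h => ev_inj (nf_spec u).1 (nf_spec w).1 (by rw [(nf_spec u).2, (nf_spec w).2, h]),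
    fun h => by rw [← (nf_spec u).2, ← (nf_spec w).2, h]⟩

theorem exists_rd (g : FreeGroup (Fin n)) : ∃ p, Rd p ∧ ev p = g := by
  suffices ∃ w, ev w = g by
    obtain ⟨w, rfl⟩ := this
    exact ⟨nf w, nf_spec w⟩
  induction g using FreeGroup.induction_on with
  | C1 => exact ⟨[], rfl⟩
  | of x => exact ⟨[Sum.inl x], by simp [gen]⟩
  | inv_of x _ => exact ⟨[Sum.inr x], by simp [gen]⟩
  | mul x y hx hy =>
    obtain ⟨u, rfl⟩ := hx
    obtain ⟨w, rfl⟩ := hy
    exact ⟨u ++ w, by simp⟩

/-- The Munn tree is closed under prefixes of reduced words. -/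
theorem pre_prefix (w : List (Al n)) : ∀ q s, Rd (q ++ s) → ev (q ++ s) ∈ pre w → ev q ∈ pre w := by
  induction w using List.reverseRecOn with
  | nil =>
    intro q s h1 h2
    have := ev_inj h1 List.isChain_nil ((mem_pre_nil _).1 h2)
    simp only [List.append_eq_nil_iff] at this
    rw [this.1]; exact one_mem_pre _
  | append_singleton w a ih =>
    intro q s h1 h2
    rw [mem_pre_append] at h2 ⊢
    rcases h2 with h2 | ⟨h, h3, h2⟩
    · exact Or.inl (ih q s h1 h2)
    · simp only [mem_pre_cons, mem_pre_nil, exists_eq_left, mul_one] at h3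
      rcases h3 with rfl | rfl
      · exact Or.inl (ih q s h1 (by rw [h2, mul_one]; exact ev_mem_pre w))
      · have e : q ++ s = stp (nf w) a :=
          ev_inj h1 ((nf_spec w).1.stp a) (by rw [h2, ev_stp, (nf_spec w).2])
        have hw : ev (nf w) ∈ pre w := by rw [(nf_spec w).2]; exact ev_mem_pre w
        rcases stp_cases (nf w) a with ⟨h, -⟩ | h
        · rw [h] at e
          rcases List.eq_nil_or_concat s with rfl | ⟨s', b, rfl⟩
          · refine Or.inr ⟨gen a, ?_, by simpa using h2⟩
            simp [mem_pre_cons, mem_pre_nil]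
          · rw [List.concat_eq_append, ← List.append_assoc] at e
            have e' := (List.append_inj' e rfl).1
            exact Or.inl (ih q s' (e' ▸ (nf_spec w).1) (e' ▸ hw))
        · rw [← e, List.append_assoc] at h
          exact Or.inl (ih q _ (h ▸ (nf_spec w).1) (h ▸ hw))

section Runs

variable {α ρ : Type}

/-- Runs of an automaton with empty moves, as lists of transitions. -/
inductive Chn (δ : ρ × Option α × ρ → Prop) (j : ρ) : ρ → List (ρ × Option α × ρ) → Prop
  | nil : Chn δ j j []
  | cons (t l) : δ t → Chn δ j t.2.2 l → Chn δ j t.1 (t :: l)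

/-- The word read by a run. -/
def word (l : List (ρ × Option α × ρ)) : List α := l.filterMap fun t => t.2.1

theorem word_append (l l' : List (ρ × Option α × ρ)) : word (l ++ l') = word l ++ word l' :=
  List.filterMap_append

theorem Chn.append {δ : ρ × Option α × ρ → Prop} {i j k : ρ} {l l' : List (ρ × Option α × ρ)}
    (h : Chn δ j i l) (h' : Chn δ k j l') : Chn δ k i (l ++ l') := by
  induction h with
  | nil => exact h'
  | cons t l h1 _ ih => exact Chn.cons t _ h1 ih

theorem Chn.split {δ : ρ × Option α × ρ → Prop} {k : ρ} (l l' : List (ρ × Option α × ρ)) :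
    ∀ i, Chn δ k i (l ++ l') → ∃ j, Chn δ j i l ∧ Chn δ k j l' := by
  induction l with
  | nil => exact fun i h => ⟨i, Chn.nil, h⟩
  | cons t l ih =>
    intro i h
    cases h with
    | cons _ _ h1 h2 =>
      obtain ⟨j, h3, h4⟩ := ih _ h2
      exact ⟨j, Chn.cons t l h1 h3, h4⟩

end Runs

variable {ρ : Type}

theorem Chn.shorten [Fintype ρ] {δ : ρ × Option (Al n) × ρ → Prop} {i j : ρ} (K : ℕ) :
    ∀ (m : ℕ) (l : List (ρ × Option (Al n) × ρ)), l.length ≤ m → Chn δ j i l →
      (pre (word l)).ncard ≤ K → ∃ l', Chn δ j i l' ∧ ev (word l') = ev (word l) ∧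
        pre (word l') = pre (word l) ∧ l'.length ≤ Fintype.card ρ * (K * (K + 1)) := by
  classical
  intro m
  induction m with
  | zero => exact fun l hl h _ => ⟨l, h, rfl, rfl, by omega⟩
  | succ m ih =>
    intro l hl h hK
    by_cases hs : l.length ≤ Fintype.card ρ * (K * (K + 1))
    · exact ⟨l, h, rfl, rfl, hs⟩
    have hst : ∀ k, ∃ s, Chn δ s i (l.take k) ∧ Chn δ j s (l.drop k) := fun k =>
      Chn.split _ _ i (by rwa [List.take_append_drop])
    choose st h1 h2 using hst
    have hsub : ∀ a b, a ≤ b → pre (word (l.take a)) ⊆ pre (word (l.take b)) := by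
      intro a b hab g hg
      have : l.take b = l.take a ++ (l.take b).drop a := by
        conv_lhs => rw [← List.take_append_drop a (l.take b), List.take_take, min_eq_left hab]
      rw [this, word_append, mem_pre_append]
      exact Or.inl hg
    have hsub' : ∀ a, pre (word (l.take a)) ⊆ pre (word l) := by
      intro a g hg
      rw [← List.take_append_drop a l, word_append, mem_pre_append]
      exact Or.inl hg
    obtain ⟨a, ha, b, hb, hab, e⟩ := Finset.exists_ne_map_eq_of_card_lt_of_maps_to
      (s := Finset.range (l.length + 1))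
      (t := Finset.univ ×ˢ ((pre_finite (word l)).toFinset ×ˢ Finset.range (K + 1)))
      (by
        simp only [Finset.card_product, Finset.card_univ, Finset.card_range]
        rw [← ncard_eq_toFinset_card _ (pre_finite _)]
        have := Nat.mul_le_mul_left (Fintype.card ρ) (Nat.mul_le_mul_right (K + 1) hK)
        omega)
      (f := fun k => (st k, ev (word (l.take k)), (pre (word (l.take k))).ncard))
      (by
        intro k _
        simp only [Finset.coe_product, Finset.coe_univ, Finite.coe_toFinset, Finset.coe_range,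
          mem_prod, mem_univ, true_and, mem_Iio]
        exact ⟨hsub' k (ev_mem_pre _),
          Nat.lt_succ_of_le ((ncard_le_ncard (hsub' k) (pre_finite _)).trans hK)⟩)
    wlog hlt : a < b generalizing a b
    · exact this b hb a ha hab.symm e.symm (by omega)
    simp only [Prod.mk.injEq] at e
    obtain ⟨e1, e2, e3⟩ := e
    have e4 : pre (word (l.take a)) = pre (word (l.take b)) :=
      eq_of_subset_of_ncard_le (hsub a b hlt.le) e3.ge (pre_finite _)
    have e5 : ev (word (l.take a ++ l.drop b)) = ev (word l) := by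
      conv_rhs => rw [← List.take_append_drop b l]
      rw [word_append, word_append, ev_append, ev_append, e2]
    have e6 : pre (word (l.take a ++ l.drop b)) = pre (word l) := by
      conv_rhs => rw [← List.take_append_drop b l]
      ext g
      rw [word_append, word_append, mem_pre_append, mem_pre_append, e2, e4]
    obtain ⟨l', g1, g2, g3, g4⟩ := ih (l.take a ++ l.drop b) (by
      simp only [Finset.mem_range] at ha hb
      simp only [List.length_append, List.length_take, List.length_drop]
      omega) ((h1 a).append (e1 ▸ h2 b)) (e6 ▸ hK)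
    exact ⟨l', g1, g2.trans e5, g3.trans e6, g4⟩

/-- The word `z` has the same image in the free inverse monoid as an accepted word. -/
def MemG (δ : ρ × Option (Al n) × ρ → Prop) (i0 : ρ) (F : ρ → Prop) (z : List (Al n)) : Prop :=
  ∃ l j, Chn δ j i0 l ∧ F j ∧ ev z = ev (word l) ∧ pre z = pre (word l)

end Pool.Agent.H543Z.FIM
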