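import Pool.Agent.H543Z.FIM.Tree

/-!
Tree-walking automata that must cover a prescribed set of nodes define languages of bounded index.
-/

open Set

namespace Pool.Agent.H543Z.FIM

variable {α Γ σ : Type}

/-- A tree-walking automaton. -/
structure TWA (α Γ σ : Type) where
  stay : Γ → σ → σ → Prop
  down : σ → α → σ → Prop
  up : σ → α → σ → Prop
  cnt : σ → Prop

variable (M : TWA α Γ σ)

/-- One move on the tree `t`. -/
inductive Step (t : List α → Γ) : List α × σ → List α × σ → Prop
  | stay (p x y) : M.stay (t p) x y → Step t (p, x) (p, y)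
  | down (p a x y) : M.down x a y → Step t (p, x) (p ++ [a], y)
  | up (p a x y) : M.up x a y → Step t (p ++ [a], x) (p, y)

/-- The node counted as visited in a configuration. -/
def wt (c : List α × σ) : Set (List α) := {p | p = c.1 ∧ M.cnt c.2}

/-- Walks, with the set of counted nodes. -/
inductive Pth (t : List α → Γ) (d : List α × σ) : List α × σ → Set (List α) → Prop
  | refl : Pth t d d (wt M d)
  | head (c c' S) : Step M t c c' → Pth t d c' S → Pth t d c (wt M c ∪ S)

variable {M}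

theorem Pth.wt_subset {t : List α → Γ} {d c : List α × σ} {S : Set (List α)} (h : Pth M t d c S) :
    wt M c ⊆ S := by
  cases h with
  | refl => exact subset_rfl
  | head => exact subset_union_left

theorem Pth.trans {t : List α → Γ} {c d e : List α × σ} {S S' : Set (List α)}
    (h : Pth M t d c S) (h' : Pth M t e d S') : Pth M t e c (S ∪ S') := by
  induction h with
  | refl => rwa [union_eq_right.2 h'.wt_subset]
  | head c c' S hs _ ih => rw [union_assoc]; exact Pth.head _ _ _ hs ih

theorem Step.shift {t : List α → Γ} {q : List α} {c c' : List α × σ} (h : Step M (subt t q) c c') :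
    Step M t (q ++ c.1, c.2) (q ++ c'.1, c'.2) := by
  cases h with
  | stay p x y h => exact Step.stay _ _ _ h
  | down p a x y h => simpa only [List.append_assoc] using Step.down (t := t) (q ++ p) a x y h
  | up p a x y h => simpa only [List.append_assoc] using Step.up (t := t) (q ++ p) a x y h

theorem wt_shift (q : List α) (c : List α × σ) :
    wt M (q ++ c.1, c.2) = (q ++ ·) '' wt M c := by
  ext p
  simp only [wt, mem_ofPred_eq, mem_image]
  constructor
  · rintro ⟨rfl, h⟩; exact ⟨_, ⟨rfl, h⟩, rfl⟩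
  · rintro ⟨_, ⟨rfl, h⟩, rfl⟩; exact ⟨rfl, h⟩

theorem Pth.shift {t : List α → Γ} {q : List α} {c d : List α × σ} {S : Set (List α)}
    (h : Pth M (subt t q) d c S) : Pth M t (q ++ d.1, d.2) (q ++ c.1, c.2) ((q ++ ·) '' S) := by
  induction h with
  | refl => rw [← wt_shift]; exact Pth.refl
  | head c c' S hs _ ih => rw [image_union, ← wt_shift]; exact Pth.head _ _ _ hs.shift ih

theorem Step.congr {t t' : List α → Γ} {c c' : List α × σ} (h : Step M t c c')
    (e : c.1 = c'.1 → t c.1 = t' c.1) : Step M t' c c' := by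
  cases h with
  | stay p x y h => exact Step.stay _ _ _ (e rfl ▸ h)
  | down p a x y h => exact Step.down _ _ _ _ h
  | up p a x y h => exact Step.up _ _ _ _ h

theorem eq_of_prefix_concat {q p : List α} {a : α} (h : q <+: p ++ [a]) (h' : ¬ q <+: p) :
    p ++ [a] = q := by
  rcases List.prefix_concat_iff.1 h with h | h
  · exact h.symm
  · exact absurd h h'

theorem Step.enter {t : List α → Γ} {q : List α} {c c' : List α × σ} (h : Step M t c c')
    (h1 : ¬ q <+: c.1) (h2 : q <+: c'.1) : c'.1 = q := by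
  cases h with
  | stay p x y h => exact absurd h2 h1
  | down p a x y h => exact eq_of_prefix_concat h2 h1
  | up p a x y h => exact absurd (h2.trans (List.prefix_append _ _)) h1

theorem Step.exit {t : List α → Γ} {q : List α} {c c' : List α × σ} (h : Step M t c c')
    (h1 : q <+: c.1) (h2 : ¬ q <+: c'.1) : c.1 = q := by
  cases h with
  | stay p x y h => exact absurd h1 h2
  | down p a x y h => exact absurd (h1.trans (List.prefix_append _ _)) h2
  | up p a x y h => exact eq_of_prefix_concat h1 h2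

theorem Step.inside {t : List α → Γ} {q : List α} {c c' : List α × σ} (h : Step M t c c')
    {s s' : List α} (h1 : c.1 = q ++ s) (h2 : c'.1 = q ++ s') :
    Step M (subt t q) (s, c.2) (s', c'.2) := by
  cases h with
  | stay p x y h =>
    simp only at h1 h2
    subst h1
    obtain rfl := List.append_cancel_left h2
    exact Step.stay _ _ _ h
  | down p a x y h =>
    simp only at h1 h2
    subst h1
    rw [List.append_assoc] at h2
    obtain rfl := List.append_cancel_left h2
    exact Step.down _ _ _ _ h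
  | up p a x y h =>
    simp only at h1 h2
    subst h2
    rw [List.append_assoc] at h1
    obtain rfl := List.append_cancel_left h1
    exact Step.up _ _ _ _ h

variable (M) in
/-- The part of a walk outside the subtree at `q`, with the list of the excursions into it. -/
inductive Sk (t : List α → Γ) (q : List α) (d : List α × σ) :
    List α × σ → List (σ × σ) → Set (List α) → Prop
  | refl : Sk t q d d [] (wt M d)
  | out (e e' L S) : ¬ q <+: e.1 → ¬ q <+: e'.1 → Step M t e e' → Sk t q d e' L S →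
      Sk t q d e L (wt M e ∪ S)
  | exc (e x y e' L S) : ¬ q <+: e.1 → ¬ q <+: e'.1 → Step M t e (q, x) → Step M t (q, y) e' →
      Sk t q d e' L S → Sk t q d e ((x, y) :: L) (wt M e ∪ S)

theorem Sk.outside {t : List α → Γ} {q : List α} {d e : List α × σ} {L : List (σ × σ)}
    {S : Set (List α)} (h : Sk M t q d e L S) (hd : ¬ q <+: d.1) : ∀ p ∈ S, ¬ q <+: p := by
  induction h with
  | refl => rintro p ⟨rfl, -⟩; exact hd
  | out e e' L S h1 _ _ _ ih => rintro p (⟨rfl, -⟩ | hp); exacts [h1, ih p hp]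
  | exc e x y e' L S h1 _ _ _ _ ih => rintro p (⟨rfl, -⟩ | hp); exacts [h1, ih p hp]

/-- Excursions: entry state, exit state and counted nodes. -/
abbrev Seg (α σ : Type) := (σ × σ) × Set (List α)

variable (M) in
/-- All excursions of the list are walks in `r` from the root to the root. -/
def SegsOK (r : List α → Γ) (segs : List (Seg α σ)) : Prop :=
  ∀ s ∈ segs, Pth M r ([], s.1.2) ([], s.1.1) s.2

/-- The nodes covered by a list of excursions. -/
def cover (segs : List (Seg α σ)) : Set (List α) := {p | ∃ s ∈ segs, p ∈ s.2}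

theorem cover_cons (s : Seg α σ) (segs : List (Seg α σ)) : cover (s :: segs) = s.2 ∪ cover segs := by
  ext p; simp [cover]

theorem decompose {t : List α → Γ} {q : List α} {d e : List α × σ} {S : Set (List α)}
    (hd : ¬ q <+: d.1) (h : Pth M t d e S) :
    (¬ q <+: e.1 → ∃ segs So, Sk M t q d e (segs.map Prod.fst) So ∧ SegsOK M (subt t q) segs ∧
      S = So ∪ (q ++ ·) '' cover segs) ∧
    (∀ s, e.1 = q ++ s → ∃ y e' I segs So, Pth M (subt t q) ([], y) (s, e.2) I ∧
      Step M t (q, y) e' ∧ ¬ q <+: e'.1 ∧ Sk M t q d e' (segs.map Prod.fst) So ∧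
      SegsOK M (subt t q) segs ∧ S = (q ++ ·) '' I ∪ (So ∪ (q ++ ·) '' cover segs)) := by
  induction h with
  | refl =>
    refine ⟨fun _ => ⟨[], _, Sk.refl, by simp [SegsOK], by simp [cover]⟩, fun s hs => ?_⟩
    exact absurd (hs ▸ List.prefix_append q s) hd
  | head c c' S hs _ ih =>
    constructor
    · intro hc
      by_cases hc' : q <+: c'.1
      · have e1 := hs.enter hc hc'
        obtain ⟨y, e', I, segs, So, h1, h2, h3, h4, h5, h6⟩ := ih.2 [] (by simpa using e1)
        refine ⟨((c'.2, y), I) :: segs, _, Sk.exc c c'.2 y e' _ So hc h3 (e1 ▸ hs) h2 h4, ?_, ?_⟩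
        · intro s hs
          rcases List.mem_cons.1 hs with rfl | hs
          exacts [h1, h5 s hs]
        · rw [h6, cover_cons, image_union]
          ext p; simp only [mem_union]; tauto
      · obtain ⟨segs, So, h1, h2, h3⟩ := ih.1 hc'
        exact ⟨segs, _, Sk.out c c' _ So hc hc' hs h1, h2, by rw [h3, union_assoc]⟩
    · intro s hcs
      have hw : wt M c = (q ++ ·) '' wt M (s, c.2) := by
        rw [← wt_shift, ← hcs]
      by_cases hc' : q <+: c'.1
      · obtain ⟨s', hs'⟩ := hc'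
        obtain ⟨y, e', I, segs, So, h1, h2, h3, h4, h5, h6⟩ := ih.2 s' hs'.symm
        refine ⟨y, e', _, segs, So, Pth.head _ _ _ (hs.inside hcs hs'.symm) h1, h2, h3, h4, h5, ?_⟩
        rw [h6, image_union, hw, union_assoc]
      · have e1 := hs.exit (hcs ▸ List.prefix_append q s) hc'
        obtain rfl : s = [] := by simpa [hcs] using e1
        obtain ⟨segs, So, h1, h2, h3⟩ := ih.1 hc'
        exact ⟨c.2, c', _, segs, So, Pth.refl, e1 ▸ hs, hc', h1, h2, by rw [h3, hw]⟩

theorem compose {t t' : List α → Γ} {q : List α} (htt : ∀ p, ¬ q <+: p → t p = t' p)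
    {d e : List α × σ} {L : List (σ × σ)} {So : Set (List α)} (h : Sk M t q d e L So) :
    ∀ segs : List (Seg α σ), segs.map Prod.fst = L → SegsOK M (subt t' q) segs →
      Pth M t' d e (So ∪ (q ++ ·) '' cover segs) := by
  induction h with
  | refl =>
    intro segs h1 _
    obtain rfl : segs = [] := by simpa using h1
    simpa [cover] using Pth.refl
  | out e e' L S h1 h2 hs _ ih =>
    intro segs h3 h4
    rw [union_assoc]
    exact Pth.head _ _ _ (hs.congr fun _ => htt _ h1) (ih segs h3 h4)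
  | exc e x y e' L S h1 h2 hs hs' _ ih =>
    intro segs h3 h4
    obtain ⟨s, segs', rfl, h5, h6⟩ := List.map_eq_cons_iff.1 h3
    have p1 := (h4 s List.mem_cons_self).shift
    rw [h5] at p1
    simp only [List.append_nil] at p1
    have p2 := ih segs' h6 fun s hs => h4 s (List.mem_cons_of_mem _ hs)
    have p3 := Pth.head _ _ _ (hs'.congr (t' := t') fun h => absurd (h ▸ List.prefix_rfl) h2) p2
    have p4 := Pth.head _ _ _ (hs.congr fun _ => htt _ h1) (p1.trans p3)
    convert p4 using 1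
    have hend : ∀ {d c : List α × σ} {S : Set (List α)}, Pth M t' d c S → wt M d ⊆ S := by
      intro d c S h
      induction h with
      | refl => exact subset_rfl
      | head _ _ _ _ _ ih => exact ih.trans subset_union_right
    have h7 := hend p1
    rw [cover_cons, image_union]
    ext p
    have := @h7 p
    simp only [mem_union]
    tauto

variable (M) in
/-- The continuation of a skeleton after an excursion with exit state `y`. -/
def Aft (t : List α → Γ) (q : List α) (d : List α × σ) (y : σ) (L : List (σ × σ))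
    (S : Set (List α)) : Prop :=
  ∃ e', ¬ q <+: e'.1 ∧ Step M t (q, y) e' ∧ Sk M t q d e' L S

theorem Sk.split {t : List α → Γ} {q : List α} {d e : List α × σ} {L : List (σ × σ)}
    {S : Set (List α)} (h : Sk M t q d e L S) :
    ∀ l1 ℓ l2, L = l1 ++ ℓ :: l2 → ∃ S1 S2, S = S1 ∪ S2 ∧ Aft M t q d ℓ.2 l2 S2 ∧
      ∀ l S', Aft M t q d ℓ.2 l S' → Sk M t q d e (l1 ++ ℓ :: l) (S1 ∪ S') := by
  induction h with
  | refl => intro l1 ℓ l2 h; simp at h
  | out e e' L S h1 h2 hs _ ih =>
    intro l1 ℓ l2 h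
    obtain ⟨S1, S2, e1, e2, e3⟩ := ih l1 ℓ l2 h
    refine ⟨wt M e ∪ S1, S2, by rw [e1, union_assoc], e2, fun l S' h' => ?_⟩
    rw [union_assoc]
    exact Sk.out _ _ _ _ h1 h2 hs (e3 l S' h')
  | exc e x y e' L S h1 h2 hs hs' hk ih =>
    intro l1 ℓ l2 h
    cases l1 with
    | nil =>
      simp only [List.nil_append, List.cons.injEq] at h
      obtain ⟨rfl, rfl⟩ := h
      refine ⟨wt M e, S, rfl, ⟨e', h2, hs', hk⟩, fun l S' h' => ?_⟩
      obtain ⟨e'', g1, g2, g3⟩ := h'
      exact Sk.exc _ _ _ _ _ _ h1 g1 hs g2 g3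
    | cons a l1 =>
      simp only [List.cons_append, List.cons.injEq] at h
      obtain ⟨rfl, h⟩ := h
      obtain ⟨S1, S2, e1, e2, e3⟩ := ih l1 ℓ l2 h
      refine ⟨wt M e ∪ S1, S2, by rw [e1, union_assoc], e2, fun l S' h' => ?_⟩
      rw [union_assoc]
      exact Sk.exc _ _ _ _ _ _ h1 h2 hs hs' (e3 l S' h')

theorem Sk.dup {t : List α → Γ} {q : List α} {d e : List α × σ} {l1 l2 l3 : List (σ × σ)}
    {ℓ : σ × σ} {S : Set (List α)} (h : Sk M t q d e (l1 ++ ℓ :: (l2 ++ ℓ :: l3)) S) :
    Sk M t q d e (l1 ++ ℓ :: (l2 ++ ℓ :: (l2 ++ ℓ :: l3))) S := by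
  obtain ⟨S1, S2, rfl, hA, h1⟩ := h.split l1 ℓ _ rfl
  apply h1
  obtain ⟨e', g1, g2, g3⟩ := hA
  obtain ⟨S3, S4, rfl, -, h2⟩ := g3.split l2 ℓ l3 rfl
  refine ⟨e', g1, g2, ?_⟩
  have := h2 _ _ ⟨e', g1, g2, g3⟩
  rwa [← union_assoc, union_self] at this

theorem Sk.more [DecidableEq σ] [Fintype σ] {t : List α → Γ} {q : List α} {d e : List α × σ}
    {S : Set (List α)} (L' : List (σ × σ)) :
    ∀ (k : ℕ) (L : List (σ × σ)), Sk M t q d e L S → (∀ ℓ ∈ L, ℓ ∈ L') → (∀ ℓ ∈ L', ℓ ∈ L) →
      (∀ ℓ, 2 ≤ L'.count ℓ → 2 ≤ L.count ℓ) → ∑ ℓ, (L'.count ℓ - L.count ℓ) ≤ k →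
      ∃ L'', Sk M t q d e L'' S ∧ (∀ ℓ ∈ L'', ℓ ∈ L') ∧ ∀ ℓ, L'.count ℓ ≤ L''.count ℓ := by
  intro k
  induction k with
  | zero =>
    intro L h h1 _ _ h4
    refine ⟨L, h, h1, fun ℓ => ?_⟩
    have := Finset.sum_eq_zero_iff.1 (Nat.le_zero.1 h4) ℓ (Finset.mem_univ _)
    omega
  | succ k ih =>
    intro L h h1 h2 h3 h4
    by_cases hall : ∀ ℓ, L'.count ℓ ≤ L.count ℓ
    · exact ⟨L, h, h1, hall⟩
    push Not at hall
    obtain ⟨ℓ, hℓ⟩ := hall
    have hmem : ℓ ∈ L := h2 ℓ (List.count_pos_iff.1 (by omega))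
    have hc : 2 ≤ L.count ℓ := h3 ℓ (by have := List.count_pos_iff.2 hmem; omega)
    obtain ⟨l1, l', rfl⟩ := List.append_of_mem hmem
    obtain ⟨m1, m2, m3, hm⟩ : ∃ m1 m2 m3, l1 ++ ℓ :: l' = m1 ++ ℓ :: (m2 ++ ℓ :: m3) := by
      by_cases h5 : ℓ ∈ l'
      · obtain ⟨m2, m3, rfl⟩ := List.append_of_mem h5
        exact ⟨l1, m2, m3, rfl⟩
      · have h6 : ℓ ∈ l1 := by
          have := List.count_eq_zero.2 h5
          simp only [List.count_append, List.count_cons_self] at hc
          exact List.count_pos_iff.1 (by omega)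
        obtain ⟨m1, m2, rfl⟩ := List.append_of_mem h6
        exact ⟨m1, m2, l', by simp⟩
    rw [hm] at h h1 h2 h3 h4 hℓ
    have hge : ∀ ℓ', (m1 ++ ℓ :: (m2 ++ ℓ :: m3)).count ℓ' ≤
        (m1 ++ ℓ :: (m2 ++ ℓ :: (m2 ++ ℓ :: m3))).count ℓ' := by
      intro ℓ'
      simp only [List.count_append, List.count_cons]
      omega
    refine ih _ h.dup ?_ ?_ (fun ℓ' h' => (h3 ℓ' h').trans (hge ℓ')) ?_
    · intro ℓ' h'
      apply h1
      simp only [List.mem_append, List.mem_cons] at h' ⊢
      tauto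
    · intro ℓ' h'
      have := h2 ℓ' h'
      simp only [List.mem_append, List.mem_cons] at this ⊢
      tauto
    · refine Nat.lt_succ_iff.1 (lt_of_lt_of_le ?_ h4)
      refine Finset.sum_lt_sum (fun ℓ' _ => Nat.sub_le_sub_left (hge ℓ') _)
        ⟨ℓ, Finset.mem_univ _, ?_⟩
      simp only [List.count_append, List.count_cons_self] at hℓ ⊢
      omega

theorem exists_assign {A B : Type} [BEq B] [LawfulBEq B] (f : A → B) (l : List A) (L : List B)
    (h1 : ∀ b ∈ L, b ∈ l.map f) (h2 : ∀ b, (l.map f).count b ≤ L.count b) :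
    ∃ l' : List A, l'.map f = L ∧ ∀ a, a ∈ l' ↔ a ∈ l := by
  have hp := List.subperm_append_diff_self_of_count_le (l₁ := l.map f) (l₂ := L) fun b _ => h2 b
  obtain ⟨rest, hr1, hr2⟩ : ∃ rest : List A, rest.map f = L.diff (l.map f) ∧ ∀ a ∈ rest, a ∈ l := by
    have : ∀ D : List B, (∀ b ∈ D, b ∈ l.map f) → ∃ rest : List A, rest.map f = D ∧
        ∀ a ∈ rest, a ∈ l := by
      intro D
      induction D with
      | nil => exact fun _ => ⟨[], rfl, by simp⟩
      | cons b D ih =>
        intro h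
        obtain ⟨rest, e1, e2⟩ := ih fun b hb => h b (List.mem_cons_of_mem _ hb)
        obtain ⟨a, ha, rfl⟩ := List.mem_map.1 (h b List.mem_cons_self)
        refine ⟨a :: rest, by simp [e1], ?_⟩
        intro a' h'
        rcases List.mem_cons.1 h' with rfl | h'
        exacts [ha, e2 a' h']
    exact this _ fun b hb => h1 b (List.diff_subset _ _ hb)
  rw [← hr1, ← List.map_append] at hp
  have : Relation.Comp (· = List.map f ·) (List.Perm · ·) L (l ++ rest) := by
    rw [List.eq_map_comp_perm]; exact hp.symm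
  obtain ⟨l', e1, e2⟩ := this
  refine ⟨l', e1.symm, fun a => ?_⟩
  rw [e2.mem_iff, List.mem_append]
  exact ⟨fun h => h.elim id (hr2 a), Or.inl⟩

variable (M) in
/-- The language of trees whose marked part is covered exactly by an accepting walk. -/
def Lang (inT : Γ → Prop) (x0 x1 : σ) : Set (List α → Γ) :=
  {t | ∃ S, Pth M t ([], x1) ([], x0) S ∧ ∀ p, p ∈ S ↔ inT (t p)}

/-- Index bound for the covering languages with `k` states. -/
@[irreducible] def bL (k : ℕ) : ℕ := 2 * 2 ^ (2 ^ (k * k) * 2 ^ (k * k))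

theorem idx_lang [Fintype σ] (inT : Γ → Prop) (x0 x1 : σ) :
    Idx (Lang M inT x0 x1) (bL (Fintype.card σ)) := by
  classical
  unfold bL
  refine ⟨Prop × Set (Set (σ × σ) × Set (σ × σ)), inferInstance,
    fun r => (r ∈ Lang M inT x0 x1, {z | ∃ segs, SegsOK M r segs ∧
      (∀ p, p ∈ cover segs ↔ inT (r p)) ∧ z = ({ℓ | ℓ ∈ segs.map Prod.fst},
        {ℓ | 2 ≤ (segs.map Prod.fst).count ℓ})}), ?_, fun r r' e c q h => ?_⟩
  · rw [Nat.card_prod, card_prop, Nat.card_eq_fintype_card, Fintype.card_set, Fintype.card_prod,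
      Fintype.card_set, Fintype.card_prod]
  by_cases hq : q = []
  · subst hq
    simp only [sub_nil] at h ⊢
    exact (iff_of_eq (congrArg Prod.fst e)).1 h
  have hd : ∀ x : σ, ¬ q <+: (([], x) : List α × σ).1 := fun x h => hq (List.prefix_nil.1 h)
  obtain ⟨S, hP, hS⟩ := h
  obtain ⟨segs, So, h1, h2, h3⟩ := (decompose (hd x1) hP).1 (hd x0)
  have hout := h1.outside (hd x1)
  rw [subt_sub] at h2
  have hcov : ∀ p, p ∈ cover segs ↔ inT (r p) := by
    intro p
    have := hS (q ++ p)
    rw [sub_append, h3] at this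
    rw [← this]
    simp only [mem_union, mem_image, List.append_cancel_left_eq, exists_eq_right]
    exact ⟨Or.inr, fun h => h.resolve_left fun h => hout _ h (List.prefix_append _ _)⟩
  have e2 := Set.ext_iff.1 (congrArg Prod.snd e) ({ℓ | ℓ ∈ segs.map Prod.fst},
    {ℓ | 2 ≤ (segs.map Prod.fst).count ℓ})
  obtain ⟨segs', g1, g2, g3⟩ := e2.1 ⟨segs, h2, hcov, rfl⟩
  have a1 : ∀ ℓ, ℓ ∈ segs.map Prod.fst ↔ ℓ ∈ segs'.map Prod.fst :=
    Set.ext_iff.1 (congrArg Prod.fst g3)
  have a2 : ∀ ℓ, 2 ≤ (segs.map Prod.fst).count ℓ ↔ 2 ≤ (segs'.map Prod.fst).count ℓ :=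
    Set.ext_iff.1 (congrArg Prod.snd g3)
  obtain ⟨L'', k1, k2, k3⟩ := Sk.more (segs'.map Prod.fst) _ _ h1 (fun ℓ => (a1 ℓ).1)
    (fun ℓ => (a1 ℓ).2) (fun ℓ => (a2 ℓ).2) le_rfl
  obtain ⟨segs'', m1, m2⟩ := exists_assign Prod.fst segs' L'' k2 k3
  have hP' := compose (t' := sub c q r') (fun p hp => by rw [sub_of_not _ _ hp, sub_of_not _ _ hp])
    k1 segs'' m1 (by rw [subt_sub]; exact fun s hs => g1 s ((m2 s).1 hs))
  refine ⟨_, hP', fun p => ?_⟩
  have hc : cover segs'' = cover segs' := by ext p; simp [cover, m2]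
  rw [hc]
  by_cases hp : q <+: p
  · obtain ⟨s, rfl⟩ := hp
    rw [sub_append, ← g2]
    simp only [mem_union, mem_image, List.append_cancel_left_eq, exists_eq_right]
    exact ⟨fun h => h.resolve_left fun h => hout _ h (List.prefix_append _ _), Or.inr⟩
  · have := hS p
    rw [sub_of_not _ _ hp, h3] at this
    rw [sub_of_not _ _ hp, ← this]
    have n1 : ∀ A : Set (List α), p ∉ (q ++ ·) '' A := by
      rintro A ⟨s, -, rfl⟩
      exact hp (List.prefix_append _ _)
    simp [n1]

end Pool.Agent.H543Z.FIM
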