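import Mathlib

/-!
Labelled trees as functions on words, substitution, languages of bounded index and pumping.
-/

open Set

namespace Pool.Agent.H543Z.FIM

variable {α Γ Δ : Type}

/-- Replace the subtree of `c` at the node `q` by `r`. -/
noncomputable def sub (c : List α → Γ) (q : List α) (r : List α → Γ) : List α → Γ := by
  classical
  exact fun p => if q <+: p then r (p.drop q.length) else c p

/-- The subtree at the node `q`. -/
def subt (t : List α → Γ) (q : List α) : List α → Γ := fun p => t (q ++ p)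

@[simp] theorem sub_append (c : List α → Γ) (q : List α) (r : List α → Γ) (p : List α) :
    sub c q r (q ++ p) = r p := by
  simp [sub]

theorem sub_of_not (c : List α → Γ) {q : List α} (r : List α → Γ) {p : List α} (h : ¬ q <+: p) :
    sub c q r p = c p := by
  simp [sub, h]

@[simp] theorem subt_sub (c : List α → Γ) (q : List α) (r : List α → Γ) :
    subt (sub c q r) q = r := by
  funext p; simp [subt]

@[simp] theorem sub_subt (t : List α → Γ) (q : List α) : sub t q (subt t q) = t := by
  funext p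
  by_cases h : q <+: p
  · obtain ⟨s, rfl⟩ := h; simp [subt]
  · exact sub_of_not _ _ h

@[simp] theorem sub_sub_self (c : List α → Γ) (q : List α) (r r' : List α → Γ) :
    sub (sub c q r) q r' = sub c q r' := by
  funext p
  by_cases h : q <+: p
  · obtain ⟨s, rfl⟩ := h; simp
  · rw [sub_of_not _ _ h, sub_of_not _ _ h, sub_of_not _ _ h]

@[simp] theorem sub_nil (c r : List α → Γ) : sub c [] r = r := by
  funext p; simpa using sub_append c [] r p

theorem sub_sub (c : List α → Γ) (q : List α) (d : List α → Γ) (q' : List α) (r : List α → Γ) :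
    sub c q (sub d q' r) = sub (sub c q d) (q ++ q') r := by
  funext p
  by_cases h : q <+: p
  · obtain ⟨s, rfl⟩ := h
    by_cases h' : q' <+: s
    · obtain ⟨s', rfl⟩ := h'
      rw [sub_append, sub_append, ← List.append_assoc, sub_append]
    · rw [sub_append, sub_of_not _ _ h', sub_of_not, sub_append]
      rwa [List.prefix_append_right_inj]
  · rw [sub_of_not _ _ h, sub_of_not, sub_of_not _ _ h]
    exact fun h' => h ((List.prefix_append q q').trans h')

theorem map_sub (f : Γ → Δ) (c : List α → Γ) (q : List α) (r : List α → Γ) :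
    f ∘ sub c q r = sub (f ∘ c) q (f ∘ r) := by
  funext p
  by_cases h : q <+: p
  · obtain ⟨s, rfl⟩ := h; simp
  · simp [sub_of_not _ _ h]

/-- The language `L` has at most `N` types of subtrees. -/
def Idx (L : Set (List α → Γ)) (N : ℕ) : Prop :=
  ∃ (ι : Type) (_ : Finite ι) (τ : (List α → Γ) → ι), Nat.card ι ≤ N ∧
    ∀ r r', τ r = τ r' → ∀ c q, sub c q r ∈ L → sub c q r' ∈ L

theorem Idx.compl {L : Set (List α → Γ)} {N : ℕ} (h : Idx L N) : Idx Lᶜ N := by
  obtain ⟨ι, _, τ, hc, h⟩ := h
  exact ⟨ι, inferInstance, τ, hc, fun r r' e c q h1 h2 => h1 (h r' r e.symm c q h2)⟩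

theorem Idx.inter {L L' : Set (List α → Γ)} {N N' : ℕ} (h : Idx L N) (h' : Idx L' N') :
    Idx (L ∩ L') (N * N') := by
  obtain ⟨ι, _, τ, hc, h⟩ := h
  obtain ⟨ι', _, τ', hc', h'⟩ := h'
  refine ⟨ι × ι', inferInstance, fun r => (τ r, τ' r), ?_, fun r r' e c q h1 => ?_⟩
  · rw [Nat.card_prod]; exact Nat.mul_le_mul hc hc'
  · exact ⟨h r r' (congrArg Prod.fst e) c q h1.1, h' r r' (congrArg Prod.snd e) c q h1.2⟩

theorem Idx.iff {L L' : Set (List α → Γ)} {N N' : ℕ} (h : Idx L N) (h' : Idx L' N') :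
    Idx {t | t ∈ L ↔ t ∈ L'} (N * N') := by
  obtain ⟨ι, _, τ, hc, h⟩ := h
  obtain ⟨ι', _, τ', hc', h'⟩ := h'
  refine ⟨ι × ι', inferInstance, fun r => (τ r, τ' r), ?_, fun r r' e c q h1 => ?_⟩
  · rw [Nat.card_prod]; exact Nat.mul_le_mul hc hc'
  · have e1 : τ r = τ r' := congrArg Prod.fst e
    have e2 : τ' r = τ' r' := congrArg Prod.snd e
    exact ⟨fun h2 => h' r r' e2 c q (h1.1 (h r' r e1.symm c q h2)),
      fun h2 => h r r' e1 c q (h1.2 (h' r' r e2.symm c q h2))⟩

theorem Idx.comap {L : Set (List α → Δ)} {N : ℕ} (h : Idx L N) (f : Γ → Δ) :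
    Idx {t : List α → Γ | f ∘ t ∈ L} N := by
  obtain ⟨ι, _, τ, hc, h⟩ := h
  refine ⟨ι, inferInstance, fun r => τ (f ∘ r), hc, fun r r' e c q h1 => ?_⟩
  simp only [mem_ofPred_eq, map_sub] at h1 ⊢
  exact h _ _ e _ _ h1

theorem Idx.proj {L : Set (List α → Γ)} {N : ℕ} (h : Idx L N) (f : Γ → Δ) :
    Idx {t : List α → Δ | ∃ s ∈ L, f ∘ s = t} (2 ^ N) := by
  obtain ⟨ι, _, τ, hc, h⟩ := h
  refine ⟨Set ι, inferInstance, fun r => {i | ∃ s, f ∘ s = r ∧ τ s = i}, ?_,
    fun r r' e c q h1 => ?_⟩
  · have := Fintype.ofFinite ι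
    rw [Nat.card_eq_fintype_card, Fintype.card_set, ← Nat.card_eq_fintype_card]
    exact Nat.pow_le_pow_right (by norm_num) hc
  · obtain ⟨s, hs, hst⟩ := h1
    have h2 : τ (subt s q) ∈ {i | ∃ s, f ∘ s = r ∧ τ s = i} := by
      refine ⟨subt s q, ?_, rfl⟩
      funext p
      have := congrFun hst (q ++ p)
      simpa [subt] using this
    have e' : {i | ∃ s, f ∘ s = r ∧ τ s = i} = {i | ∃ s, f ∘ s = r' ∧ τ s = i} := e
    rw [e'] at h2
    obtain ⟨s', hs', hτ⟩ := h2
    refine ⟨sub s q s', h _ _ hτ.symm _ _ (by simpa using hs), ?_⟩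
    rw [map_sub, hst, hs', sub_sub_self]

theorem Idx.congr {L L' : Set (List α → Γ)} {N : ℕ} (h : Idx L N) (e : ∀ t, t ∈ L ↔ t ∈ L') :
    Idx L' N := by
  rwa [← Set.ext e]

theorem card_prop : Nat.card Prop = 2 := by
  rw [Nat.card_eq_fintype_card, Fintype.card_prop]

theorem idx_exists (φ : Γ → Prop) : Idx {t : List α → Γ | ∃ p, φ (t p)} 2 := by
  refine ⟨Prop, inferInstance, fun r => ∃ p, φ (r p), card_prop.le, fun r r' e c q h1 => ?_⟩
  obtain ⟨p, hp⟩ := h1
  by_cases h : q <+: p
  · obtain ⟨s, rfl⟩ := h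
    rw [sub_append] at hp
    obtain ⟨p', hp'⟩ : ∃ p, φ (r' p) := (iff_of_eq e).1 ⟨s, hp⟩
    exact ⟨q ++ p', by simpa using hp'⟩
  · exact ⟨p, by rwa [sub_of_not _ _ h] at hp ⊢⟩

theorem idx_uniq (φ : Γ → Prop) :
    Idx {t : List α → Γ | ∀ p p', φ (t p) → φ (t p') → p = p'} 4 := by
  refine ⟨Prop × Prop, inferInstance,
    fun r => (∃ p, φ (r p), ∀ p p', φ (r p) → φ (r p') → p = p'), by
      rw [Nat.card_prod, card_prop], fun r r' e c q h1 => ?_⟩
  have e1 : (∃ p, φ (r p)) = ∃ p, φ (r' p) := congrArg Prod.fst e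
  have e2 : (∀ p p', φ (r p) → φ (r p') → p = p') = ∀ p p', φ (r' p) → φ (r' p') → p = p' :=
    congrArg Prod.snd e
  have hr : ∀ p p', φ (r' p) → φ (r' p') → p = p' := by
    rw [← e2]
    intro p p' a b
    exact List.append_cancel_left (h1 (q ++ p) (q ++ p') (by simpa using a) (by simpa using b))
  have mixed : ∀ s p, ¬ q <+: p → φ (r' s) → φ (c p) → False := by
    intro s p hp a b
    obtain ⟨s', hs'⟩ : ∃ p, φ (r p) := e1 ▸ ⟨s, a⟩
    have := h1 (q ++ s') p (by simpa using hs') (by rwa [sub_of_not _ _ hp])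
    exact hp (this ▸ List.prefix_append q s')
  intro p p' a b
  by_cases h : q <+: p <;> by_cases h' : q <+: p'
  · obtain ⟨s, rfl⟩ := h
    obtain ⟨s', rfl⟩ := h'
    rw [hr s s' (by simpa using a) (by simpa using b)]
  · obtain ⟨s, rfl⟩ := h
    rw [sub_of_not _ _ h'] at b
    exact (mixed s p' h' (by simpa using a) b).elim
  · obtain ⟨s, rfl⟩ := h'
    rw [sub_of_not _ _ h] at a
    exact (mixed s p h (by simpa using b) a).elim
  · rw [sub_of_not _ _ h] at a
    rw [sub_of_not _ _ h'] at b
    exact h1 p p' (by rwa [sub_of_not _ _ h]) (by rwa [sub_of_not _ _ h'])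

theorem idx_chain [Fintype α] (R : α → α → Prop) (φ : Γ → Prop) :
    Idx {t : List α → Γ | ∀ p, φ (t p) → p.IsChain R} (2 * 2 ^ (Fintype.card α + 1)) := by
  refine ⟨Prop × Set (Option α), inferInstance,
    fun r => (∃ p, φ (r p), {a | ∀ p, φ (r p) → (a.toList ++ p).IsChain R}), by
      rw [Nat.card_prod, card_prop, Nat.card_eq_fintype_card, Fintype.card_set,
        Fintype.card_option], fun r r' e c q h1 => ?_⟩
  have e1 : (∃ p, φ (r p)) = ∃ p, φ (r' p) := congrArg Prod.fst e
  have e2 : {a : Option α | ∀ p, φ (r p) → (a.toList ++ p).IsChain R} =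
      {a | ∀ p, φ (r' p) → (a.toList ++ p).IsChain R} := congrArg Prod.snd e
  intro p hp
  by_cases h : q <+: p
  · obtain ⟨s, rfl⟩ := h
    rw [sub_append] at hp
    have hq : ∀ s, φ (r s) → (q ++ s).IsChain R := fun s hs => h1 _ (by simpa using hs)
    rcases List.eq_nil_or_concat q with rfl | ⟨q0, a, rfl⟩
    · have : (none : Option α) ∈ {a : Option α | ∀ p, φ (r p) → (a.toList ++ p).IsChain R} := hq
      rw [e2] at this
      exact this s hp
    · have : (some a) ∈ {a : Option α | ∀ p, φ (r p) → (a.toList ++ p).IsChain R} := by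
        intro s hs
        have := hq s hs
        rw [List.concat_eq_append, List.append_assoc, List.singleton_append,
          List.isChain_split] at this
        exact this.2
      rw [e2] at this
      obtain ⟨s', hs'⟩ : ∃ p, φ (r p) := e1 ▸ ⟨s, hp⟩
      have h3 := hq s' hs'
      rw [List.concat_eq_append, List.append_assoc, List.singleton_append,
        List.isChain_split] at h3 ⊢
      exact ⟨h3.1, this s hp⟩
  · rw [sub_of_not _ _ h] at hp
    exact h1 p (by rwa [sub_of_not _ _ h])

/-- All nodes of depth at least `H` carry the label `o`. -/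
def HtLE (o : Γ) (t : List α → Γ) (H : ℕ) : Prop := ∀ p, H ≤ p.length → t p = o

theorem HtLE.mono {o : Γ} {t : List α → Γ} {H H' : ℕ} (h : HtLE o t H) (hh : H ≤ H') :
    HtLE o t H' := fun p hp => h p (hh.trans hp)

theorem shrink [Finite α] (o : Γ) (P : (List α → Γ) → Prop) (k N : ℕ)
    (hP : ∀ t, P t → ∀ q : List α, q.length = k → ∃ r, HtLE o r N ∧ P (sub t q r))
    {t : List α → Γ} (ht : P t) : ∃ t', P t' ∧ HtLE o t' (k + N) := by
  have key : ∀ Q : Set (List α), Q.Finite → (∀ q ∈ Q, q.length = k) →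
      ∃ t', P t' ∧ ∀ q ∈ Q, HtLE o (subt t' q) N := by
    intro Q hQ
    induction Q, hQ using Set.Finite.induction_on with
    | empty => exact fun _ => ⟨t, ht, by simp⟩
    | @insert q Q _ _ ih =>
      intro hk
      obtain ⟨t', h1, h2⟩ := ih fun q' hq' => hk q' (mem_insert_of_mem _ hq')
      obtain ⟨r, hr, h3⟩ := hP t' h1 q (hk q (mem_insert _ _))
      refine ⟨_, h3, fun q' hq' => ?_⟩
      by_cases e : q' = q
      · subst e; simpa using hr
      · have hq'Q : q' ∈ Q := hq'.resolve_left e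
        intro p hp
        have : ¬ q <+: q' ++ p := by
          intro h
          have h4 := List.prefix_of_prefix_length_le h (List.prefix_append q' p)
            (by rw [hk q (mem_insert _ _), hk q' hq'])
          exact e (h4.eq_of_length (by rw [hk q (mem_insert _ _), hk q' hq'])).symm
        rw [subt, sub_of_not _ _ this]
        exact h2 q' hq'Q p hp
  obtain ⟨t', h1, h2⟩ := key {q | q.length = k} (List.finite_length_eq α k) fun _ h => h
  refine ⟨t', h1, fun p hp => ?_⟩
  have := h2 (p.take k) (by simp; omega) (p.drop k) (by simp; omega)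
  simpa [subt] using this

theorem pump [Finite α] (o : Γ) (E : (List α → Γ) → (List α → Γ) → Prop) (hE : Equivalence E)
    (hc : ∀ r r', E r r' → ∀ c q, E (sub c q r) (sub c q r')) {ι : Type} [Finite ι]
    (τ : (List α → Γ) → ι) (hτ : ∀ r r', τ r = τ r' → E r r') {N : ℕ} (hN : Nat.card ι ≤ N)
    {H : ℕ} {r : List α → Γ} (hr : HtLE o r H) : ∃ r', E r r' ∧ HtLE o r' N := by
  let D : ℕ → Prop := fun k => ∀ r, HtLE o r (k + 1) → ∃ r', E r r' ∧ HtLE o r' k
  have step : ∀ k, D k → D (k + 1) := by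
    intro k hk r hr
    obtain ⟨t', h1, h2⟩ := shrink o (fun t => E r t ∧ HtLE o t (k + 1 + 1)) 1 k (by
      intro t ht q hq
      obtain ⟨r', h1, h2⟩ := hk (subt t q) fun p hp => ht.2 _ (by simp; omega)
      refine ⟨r', h2, hE.trans ht.1 (by simpa using hc _ _ h1 t q), fun p hp => ?_⟩
      by_cases h : q <+: p
      · obtain ⟨s, rfl⟩ := h
        rw [sub_append]
        exact h2 s (by simp at hp; omega)
      · rw [sub_of_not _ _ h]; exact ht.2 p hp) ⟨hE.refl r, hr⟩
    exact ⟨t', h1.1, by rwa [add_comm] at h2⟩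
  obtain ⟨k, hkN, hk⟩ : ∃ k ≤ N, D k := by
    by_contra hcon
    have : ∀ k : Fin (N + 1), ∃ r, HtLE o r (k + 1) ∧ ∀ r', E r r' → ¬ HtLE o r' k := by
      intro k
      by_contra h
      push Not at h
      exact hcon ⟨k, by omega, h⟩
    choose f hf1 hf2 using this
    have hinj : Function.Injective (τ ∘ f) := by
      intro i j hij
      by_contra hne
      rcases lt_or_gt_of_ne hne with h | h
      · exact hf2 j (f i) (hτ _ _ hij.symm) ((hf1 i).mono h)
      · exact hf2 i (f j) (hτ _ _ hij) ((hf1 j).mono h)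
    have := Nat.card_le_card_of_injective _ hinj
    simp at this
    omega
  have all : ∀ j, D (k + j) := by
    intro j
    induction j with
    | zero => exact hk
    | succ j ih => exact step _ ih
  have fin : ∀ j r, HtLE o r (k + j) → ∃ r', E r r' ∧ HtLE o r' k := by
    intro j
    induction j with
    | zero => exact fun r h => ⟨r, hE.refl r, h⟩
    | succ j ih =>
      intro r h
      obtain ⟨r1, h1, h2⟩ := all j r h
      obtain ⟨r2, h3, h4⟩ := ih r1 h2
      exact ⟨r2, hE.trans h1 h3, h4⟩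
  obtain ⟨r', h1, h2⟩ := fin H r (hr.mono (by omega))
  exact ⟨r', h1, h2.mono hkN⟩

/-- A bounded subtree of the form `f ∘ r` can be replaced by a low one of the same form. -/
theorem Idx.small [Finite α] {L : Set (List α → Δ)} {N : ℕ} (h : Idx L N) (f : Γ → Δ) (o : Γ)
    {H : ℕ} {r : List α → Γ} (hr : HtLE o r H) :
    ∃ r', HtLE o r' N ∧ ∀ c q, sub c q (f ∘ r) ∈ L → sub c q (f ∘ r') ∈ L := by
  obtain ⟨ι, _, τ, hc, h⟩ := h
  obtain ⟨r', h1, h2⟩ := pump o (fun r r' => ∀ c q, sub c q (f ∘ r) ∈ L ↔ sub c q (f ∘ r') ∈ L)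
    ⟨fun _ _ _ => Iff.rfl, fun h c q => (h c q).symm, fun h h' c q => (h c q).trans (h' c q)⟩
    (fun r r' hrr c q c' q' => by simp only [map_sub, sub_sub]; exact hrr _ _)
    (fun r => τ (f ∘ r)) (fun r r' e c q => ⟨h _ _ e c q, h _ _ e.symm c q⟩) hc hr
  exact ⟨r', h2, fun c q => (h1 c q).1⟩

/-- A finite set of nodes whose single-mark trees form a language of index `N` has depth `< N`. -/
theorem Idx.short {L : Set (List α → Prop)} {N : ℕ} (h : Idx L N) {B : ℕ}
    (hB : ∀ q : List α, (fun p => p = q) ∈ L → q.length ≤ B) :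
    ∀ q : List α, (fun p => p = q) ∈ L → q.length < N := by
  obtain ⟨ι, _, τ, hc, h⟩ := h
  have hsub : ∀ a b : List α, sub (fun _ => False) a (fun p => p = b) = fun p => p = a ++ b := by
    intro a b
    funext p
    by_cases hp : a <+: p
    · obtain ⟨s, rfl⟩ := hp
      simp
    · rw [sub_of_not _ _ hp]
      simp only [eq_iff_iff, false_iff]
      rintro rfl
      exact hp (List.prefix_append _ _)
  have grow : ∀ q : List α, (fun p => p = q) ∈ L → N ≤ q.length →
      ∃ q' : List α, (fun p => p = q') ∈ L ∧ q.length < q'.length := by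
    intro q hq hN
    obtain ⟨i, j, hij, e⟩ : ∃ i j : Fin (N + 1), i < j ∧
        τ (fun p => p = q.drop i) = τ (fun p => p = q.drop j) := by
      by_contra hcon
      have hinj : Function.Injective fun i : Fin (N + 1) => τ (fun p => p = q.drop i) := by
        intro i j hij
        by_contra hne
        rcases lt_or_gt_of_ne hne with h | h
        · exact hcon ⟨i, j, h, hij⟩
        · exact hcon ⟨j, i, h, hij.symm⟩
      have := Nat.card_le_card_of_injective _ hinj
      simp at this
      omega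
    have h1 := h _ _ e.symm (fun _ => False) (q.take j) (by rwa [hsub, List.take_append_drop])
    rw [hsub] at h1
    refine ⟨_, h1, ?_⟩
    have hi : (i : ℕ) < j := hij
    have hj := j.2
    simp only [List.length_append, List.length_take, List.length_drop]
    omega
  have : ∀ k, ∀ q : List α, (fun p => p = q) ∈ L → N ≤ q.length → q.length + k ≤ B := by
    intro k
    induction k with
    | zero => exact fun q hq _ => hB q hq
    | succ k ih =>
      intro q hq hN
      obtain ⟨q', h1, h2⟩ := grow q hq hN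
      have := ih q' h1 (by omega)
      omega
  intro q hq
  by_contra hcon
  have := this (B + 1) q hq (by omega)
  omega

end Pool.Agent.H543Z.FIM
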